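import Pool.Agent.TH716.C3.P1b

/-!
# Deforming a map to be constant on the 1-skeleton
-/

set_option autoImplicit false

open unitInterval Topology

namespace Pool.Agent.TH716.C3

open Pool.Agent.Helper281.Sc

/-! ### the retraction of a prism -/

section prism

variable {s : Finset ℕ} (hs : s.Nonempty)

/-- the amount of the radial projection -/
noncomputable def cc (p : Simp s × I) : ℝ := min ((p.2 : ℝ) / 2) (Fill.mn s hs p.1.1)

theorem continuous_mn' : Continuous fun p : Simp s × I => Fill.mn s hs p.1.1 :=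
  (Fill.continuous_mn s hs).comp (continuous_subtype_val.comp continuous_fst)

theorem continuous_cc : Continuous (cc hs) := by
  unfold cc
  exact (Continuous.div_const (continuous_subtype_val.comp continuous_snd) 2).min
    (continuous_mn' hs)

theorem cc_nonneg (p : Simp s × I) : 0 ≤ cc hs p := by
  unfold cc
  exact le_min (by have := p.2.2.1; linarith) (Fill.mn_nonneg s hs p.1.1 p.1.2)

theorem cc_le_half (p : Simp s × I) : cc hs p ≤ (p.2 : ℝ) / 2 := min_le_left _ _

theorem cc_le_mn (p : Simp s × I) : cc hs p ≤ Fill.mn s hs p.1.1 := min_le_right _ _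

theorem two_cc (p : Simp s × I) : 2 * cc hs p ≤ 1 := by
  have := cc_le_half hs p
  have := p.2.2.2
  linarith

/-- the point -/
noncomputable def px (p : Simp s × I) : Simp s :=
  ⟨(1 - cc hs p)⁻¹ • (p.1.1 - cc hs p • Fill.bc s),
    Fill.proj_mem s hs p.1.1 p.1.2 _ (cc_le_mn hs p) (cc_nonneg hs p) (two_cc hs p)⟩

/-- the time -/
noncomputable def pt' (p : Simp s × I) : I :=
  ⟨(1 - cc hs p)⁻¹ * ((p.2 : ℝ) - 2 * cc hs p), by
    have h1 : 0 < 1 - cc hs p := by have := two_cc hs p; linarith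
    have h2 := cc_le_half hs p
    have h3 := cc_nonneg hs p
    have h4 := p.2.2.2
    refine ⟨mul_nonneg (inv_nonneg.2 h1.le) (by linarith), ?_⟩
    rw [inv_mul_le_iff₀ h1]
    linarith⟩

theorem continuous_px : Continuous (px hs) := by
  refine Continuous.subtype_mk ?_ _
  have h1 : Continuous fun p : Simp s × I => (1 - cc hs p)⁻¹ := by
    refine Continuous.inv₀ (continuous_const.sub (continuous_cc hs)) fun p => ?_
    have := two_cc hs p
    linarith
  have h2 : Continuous fun p : Simp s × I => p.1.1 - cc hs p • Fill.bc s :=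
    (continuous_subtype_val.comp continuous_fst).sub ((continuous_cc hs).smul continuous_const)
  exact h1.smul h2

theorem continuous_pt' : Continuous (pt' hs) := by
  refine Continuous.subtype_mk ?_ _
  have h1 : Continuous fun p : Simp s × I => (1 - cc hs p)⁻¹ := by
    refine Continuous.inv₀ (continuous_const.sub (continuous_cc hs)) fun p => ?_
    have := two_cc hs p
    linarith
  have h2 : Continuous fun p : Simp s × I => (p.2 : ℝ) - 2 * cc hs p :=
    (continuous_subtype_val.comp continuous_snd).sub (continuous_const.mul (continuous_cc hs))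
  exact h1.mul h2

theorem px_zero (p : Simp s × I) (h : cc hs p = 0) : px hs p = p.1 := by
  apply Subtype.ext
  simp [px, h]

theorem pt'_zero (p : Simp s × I) (h : cc hs p = 0) : pt' hs p = p.2 := by
  apply Subtype.ext
  simp [pt', h]

theorem pt'_bottom (p : Simp s × I) (h : (p.2 : ℝ) / 2 ≤ Fill.mn s hs p.1.1) :
    pt' hs p = 0 := by
  have : cc hs p = (p.2 : ℝ) / 2 := min_eq_left h
  apply Subtype.ext
  simp only [pt', this, Set.Icc.coe_zero]
  rw [mul_eq_zero]
  right
  ring

theorem px_side (p : Simp s × I) (h : Fill.mn s hs p.1.1 ≤ (p.2 : ℝ) / 2) :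
    ∃ v ∈ s, (px hs p).1 v = 0 := by
  have : cc hs p = Fill.mn s hs p.1.1 := min_eq_right h
  obtain ⟨v, hv, hv2⟩ := Fill.mn_attained s hs p.1.1
  refine ⟨v, hv, ?_⟩
  simp only [px, this, Pi.smul_apply, Pi.sub_apply, smul_eq_mul, Fill.bc, if_pos hv, hv2]
  simp

include hs in
/-- Homotopy extension for a simplex. -/
theorem prism_ext {Y : Type} [TopologicalSpace Y] (f : Simp s → Y) (hf : Continuous f)
    (h : {x : Simp s // ∃ v ∈ s, x.1 v = 0} × I → Y) (hh : Continuous h)
    (h0 : ∀ x, h (x, 0) = f x.1) :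
    ∃ E : Simp s × I → Y, Continuous E ∧ (∀ x, E (x, 0) = f x) ∧
      ∀ (x : Simp s) (hx : ∃ v ∈ s, x.1 v = 0) (t : I), E (x, t) = h (⟨x, hx⟩, t) := by
  let R1 : Set (Simp s × I) := {p | Fill.mn s hs p.1.1 ≤ (p.2 : ℝ) / 2}
  let R2 : Set (Simp s × I) := {p | (p.2 : ℝ) / 2 ≤ Fill.mn s hs p.1.1}
  have hd : Continuous fun p : Simp s × I => (p.2 : ℝ) / 2 :=
    Continuous.div_const (continuous_subtype_val.comp continuous_snd) 2
  have hR1 : IsClosed R1 := isClosed_le (continuous_mn' hs) hd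
  have hR2 : IsClosed R2 := isClosed_le hd (continuous_mn' hs)
  haveI : CompactSpace (Simp s) := by
    have hbd : Simp s ⊆ Set.pi Set.univ fun _ : ℕ => Set.Icc (0 : ℝ) 1 := by
      intro x hx v _
      refine ⟨hx.1 v, ?_⟩
      by_cases hv : v ∈ s
      · rw [← hx.2.2]
        exact Finset.single_le_sum (fun i _ => hx.1 i) hv
      · rw [hx.2.1 v hv]
        exact zero_le_one
    exact isCompact_iff_compactSpace.1
      ((isCompact_univ_pi fun _ => isCompact_Icc).of_isClosed_subset (Car.isClosed_simp s) hbd)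
  haveI : CompactSpace R1 := isCompact_iff_compactSpace.1 hR1.isCompact
  haveI : CompactSpace R2 := isCompact_iff_compactSpace.1 hR2.isCompact
  obtain ⟨E, hE, hE'⟩ := descend (D := R1 ⊕ R2) (B := Simp s × I)
    (Sum.elim (fun p => p.1) (fun p => p.1))
    (continuous_subtype_val.sumElim continuous_subtype_val)
    (by
      intro p
      rcases le_total (Fill.mn s hs p.1.1) ((p.2 : ℝ) / 2) with h1 | h1
      · exact ⟨Sum.inl ⟨p, h1⟩, rfl⟩
      · exact ⟨Sum.inr ⟨p, h1⟩, rfl⟩)
    (Sum.elim (fun p => h (⟨px hs p.1, px_side hs p.1 p.2⟩, pt' hs p.1)) (fun p => f (px hs p.1)))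
    (by
      refine Continuous.sumElim ?_ ?_
      · refine hh.comp (Continuous.prodMk (Continuous.subtype_mk ?_ _) ?_)
        · exact (continuous_px hs).comp continuous_subtype_val
        · exact (continuous_pt' hs).comp continuous_subtype_val
      · exact hf.comp ((continuous_px hs).comp continuous_subtype_val))
    (by
      have cross : ∀ (p : Simp s × I) (h1 : p ∈ R1) (_ : p ∈ R2),
          h (⟨px hs p, px_side hs p h1⟩, pt' hs p) = f (px hs p) := by
        intro p h1 h2
        rw [pt'_bottom hs p h2, h0]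
      rintro (⟨p, hp⟩ | ⟨p, hp⟩) (⟨q, hq⟩ | ⟨q, hq⟩) he
      · simp only [Sum.elim_inl] at he ⊢
        subst he
        rfl
      · simp only [Sum.elim_inl, Sum.elim_inr] at he ⊢
        subst he
        exact cross p hp hq
      · simp only [Sum.elim_inl, Sum.elim_inr] at he ⊢
        subst he
        exact (cross p hq hp).symm
      · simp only [Sum.elim_inr] at he ⊢
        subst he
        rfl)
  refine ⟨E, hE, ?_, ?_⟩
  · intro x
    have h1 : ((x, (0 : I)) : Simp s × I) ∈ R2 := by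
      change (((0 : I) : ℝ)) / 2 ≤ Fill.mn s hs x.1
      simpa using Fill.mn_nonneg s hs x.1 x.2
    have h2 := hE' (Sum.inr ⟨(x, 0), h1⟩)
    simp only [Sum.elim_inr] at h2
    rw [h2, px_zero]
    have h3 : cc hs (x, 0) ≤ ((0 : I) : ℝ) / 2 := cc_le_half hs (x, 0)
    have h4 := cc_nonneg hs (x, 0)
    simp only [Set.Icc.coe_zero, zero_div] at h3
    linarith
  · intro x hx t
    obtain ⟨v, hv, hv0⟩ := hx
    have hmn : Fill.mn s hs x.1 = 0 := Fill.mn_zero s hs x.1 x.2 hv hv0
    have h1 : ((x, t) : Simp s × I) ∈ R1 := by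
      change Fill.mn s hs x.1 ≤ (t : ℝ) / 2
      rw [hmn]
      have := t.2.1
      linarith
    have hcc : cc hs (x, t) = 0 := by
      have h3 : cc hs (x, t) ≤ Fill.mn s hs x.1 := cc_le_mn hs (x, t)
      have h4 := cc_nonneg hs (x, t)
      linarith
    have h2 := hE' (Sum.inl ⟨(x, t), h1⟩)
    simp only [Sum.elim_inl] at h2
    rw [h2]
    congr 1
    refine Prod.ext (Subtype.ext (px_zero hs _ hcc)) (pt'_zero hs _ hcc)

end prism

theorem simp_mono'' {s t : Finset ℕ} (h : s ⊆ t) {x : ℕ → ℝ} (hx : x ∈ Simp s) : x ∈ Simp t := by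
  refine ⟨hx.1, fun v hv => hx.2.1 v fun h2 => hv (h h2), ?_⟩
  rw [← hx.2.2]
  symm
  apply Finset.sum_subset h
  intro v _ hv
  exact hx.2.1 v hv

/-- the 1-skeleton -/
def sk1 (K : Set (Finset ℕ)) : Set (Finset ℕ) := {s | s ∈ K ∧ s.card ≤ 2}

theorem isCx_sk1 {K : Set (Finset ℕ)} (hK : IsCx K) : IsCx (sk1 K) :=
  ⟨fun h => hK.1 h.1, fun s hs t hts hn => ⟨hK.2 s hs.1 t hts hn,
    (Finset.card_le_card hts).trans hs.2⟩⟩

theorem edge_fill {K : Set (Finset ℕ)} (hK : IsCx K) {Y : Type} [TopologicalSpace Y]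
    (f : Rlz K → Y) (hf : Continuous f) (y0 : Y)
    (p : ∀ (v : ℕ) (hv : ({v} : Finset ℕ) ∈ K), Path (f (vt v hv)) y0)
    (hp : ∀ (a b : ℕ) (h : ({a, b} : Finset ℕ) ∈ K), (((p a (left_mem hK h)).symm.trans
      ((ed hK a b h).map hf)).trans (p b (right_mem hK h))).Homotopic (Path.refl y0))
    (a b : ℕ) (h : ({a, b} : Finset ℕ) ∈ K) :
    ∃ G : I × I → Y, Continuous G ∧ (∀ x, G (x, 0) = f (ed hK a b h x)) ∧
      (∀ y, G (1, y) = p b (right_mem hK h) y) ∧ (∀ y, G (0, y) = p a (left_mem hK h) y) ∧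
      ∀ x, G (x, 1) = y0 := by
  have h1 : (((ed hK a b h).map hf).trans (p b (right_mem hK h))).Homotopic
      ((p a (left_mem hK h)).trans (Path.refl y0)) := by
    have h2 := hp a b h
    rw [← Path.Homotopic.Quotient.eq] at h2 ⊢
    simp only [Path.Homotopic.Quotient.mk_trans, Path.Homotopic.Quotient.mk_symm,
      Path.Homotopic.Quotient.trans_assoc] at h2 ⊢
    rw [← h2, ← Path.Homotopic.Quotient.trans_assoc, Path.Homotopic.Quotient.trans_symm,
      Path.Homotopic.Quotient.refl_trans]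
  obtain ⟨G, hG, g1, g2, g3, g4⟩ := square_fill _ _ _ _ h1
  exact ⟨G, hG, g1, g2, g3, g4⟩

theorem p1a : S_P1a := by
  classical
  intro K hK _ hd Y _ f hf y0 p hp
  have hYne : Nonempty Y := ⟨y0⟩
  have hK1 := isCx_sk1 hK
  have hsub : sk1 K ⊆ K := fun s hs => hs.1
  have ne_of : ∀ s ∈ K, s.Nonempty := by
    intro s hs
    rw [Finset.nonempty_iff_ne_empty]
    rintro rfl
    exact hK.1 hs
  -- pieces on the 1-skeleton
  have hE : ∀ s ∈ sk1 K, ∃ E : Simp s × I → Y, Continuous E ∧
      (∀ (hs : s ∈ K) x, E (x, 0) = f (Rlz.inc s hs x)) ∧ (∀ x, E (x, 1) = y0) ∧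
      (∀ a ∈ s, ∀ (ha : ({a} : Finset ℕ) ∈ K) x t, x.1 ∈ Simp ({a} : Finset ℕ) →
        E (x, t) = p a ha t) := by
    rintro s ⟨hs, hc2⟩
    have hc1 := (ne_of s hs).card_pos
    have hcase : s.card = 1 ∨ s.card = 2 := by omega
    rcases hcase with h | h
    · obtain ⟨a, rfl⟩ := Finset.card_eq_one.1 h
      refine ⟨fun q => p a hs q.2, (p a hs).continuous.comp continuous_snd, ?_, ?_, ?_⟩
      · intro hs x
        change p a hs 0 = _
        rw [Path.source]
        congr 1
        apply Subtype.ext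
        funext v
        change (if v = a then (1 : ℝ) else 0) = x.1 v
        split_ifs with hv
        · rw [hv, simp_single x.2]
        · exact (x.2.2.1 v (by simpa using hv)).symm
      · intro x
        exact Path.target _
      · intro a' ha' ha'' x t _
        rw [Finset.mem_singleton] at ha'
        subst ha'
        rfl
    · obtain ⟨a, b, hab, rfl⟩ := sort_two h
      obtain ⟨G, hG, g1, g2, g3, g4⟩ := edge_fill hK f hf y0 p hp a b hs
      have hx01 : ∀ x : Simp ({a, b} : Finset ℕ), x.1 a + x.1 b = 1 := by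
        intro x
        have := x.2.2.2
        rwa [Finset.sum_pair hab.ne] at this
      refine ⟨fun q => G (clm (q.1.1 b), q.2), ?_, ?_, ?_, ?_⟩
      · exact hG.comp ((continuous_clm.comp ((continuous_apply b).comp
          (continuous_subtype_val.comp continuous_fst))).prodMk continuous_snd)
      · intro hs x
        change G (clm (x.1 b), 0) = _
        rw [g1]
        congr 1
        have h0 := x.2.1 a
        have h1 := x.2.1 b
        have h2 := hx01 x
        have h3 := clm_val h1 (by linarith)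
        apply Subtype.ext
        funext v
        change (1 - (clm (x.1 b) : ℝ)) * (if v = a then 1 else 0) +
          (clm (x.1 b) : ℝ) * (if v = b then 1 else 0) = x.1 v
        rw [h3]
        by_cases hva : v = a
        · subst hva
          rw [if_pos rfl, if_neg hab.ne]
          linarith
        · by_cases hvb : v = b
          · subst hvb
            rw [if_neg hva, if_pos rfl]
            ring
          · rw [if_neg hva, if_neg hvb, x.2.2.1 v (by simp [hva, hvb])]
            ring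
      · intro x
        exact g4 _
      · intro a' ha' ha'' x t hx
        simp only [Finset.mem_insert, Finset.mem_singleton] at ha'
        change G (clm (x.1 b), t) = _
        rcases ha' with rfl | rfl
        · have : x.1 b = 0 := hx.2.1 b (by simp [hab.ne'])
          have e : clm 0 = 0 := clm_coe 0
          rw [this, e, g3]
        · have e : clm 1 = 1 := clm_coe 1
          rw [simp_single hx, e, g2]
  choose! E hE using hE
  let e : Finset ℕ → (ℕ → ℝ) × I → Y := fun s q =>
    if h : s ∈ sk1 K ∧ q.1 ∈ Simp s then E s (⟨q.1, h.2⟩, q.2) else y0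
  have he : ∀ s ∈ sk1 K, ∀ (x : Simp s) (u : I), e s (x.1, u) = E s (x, u) := by
    intro s hs x u
    exact dif_pos (⟨hs, x.2⟩ : s ∈ sk1 K ∧ (x.1, u).1 ∈ Simp s)
  obtain ⟨H, hH1, hH2⟩ := glue (K := sk1 K) e (by
    intro s hs
    refine ((hE s hs).1).congr fun q => ?_
    exact (he s hs q.1 q.2).symm) (by
    intro s hs t hts htn x hx u
    have ht : t ∈ sk1 K := hK1.2 s hs t hts htn
    have hxs : x ∈ Simp s := simp_mono'' hts hx
    rw [he s hs ⟨x, hxs⟩ u, he t ht ⟨x, hx⟩ u]
    by_cases hst : t = s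
    · subst hst
      rfl
    have hlt : t.card < s.card := Finset.card_lt_card (hts.ssubset_of_ne hst)
    have hc2 := hs.2
    have hc1 := htn.card_pos
    obtain ⟨a, rfl⟩ := Finset.card_eq_one.1 (by omega : t.card = 1)
    rw [(hE s hs).2.2.2 a (hts (Finset.mem_singleton_self a)) ht.1 ⟨x, hxs⟩ u hx,
      (hE _ ht).2.2.2 a (Finset.mem_singleton_self a) ht.1 ⟨x, hx⟩ u hx])
  have hHE : ∀ s (hs : s ∈ sk1 K) (x : Simp s) (u : I), H (Rlz.inc s hs x, u) = E s (x, u) := by
    intro s hs x u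
    rw [hH2 s hs x u, he s hs x u]
  -- pieces on all simplices
  have hE' : ∀ s ∈ K, ∃ E' : Simp s × I → Y, Continuous E' ∧
      (∀ (hs : s ∈ K) x, E' (x, 0) = f (Rlz.inc s hs x)) ∧
      (∀ (t : Finset ℕ) (ht : t ∈ sk1 K), t ⊆ s → ∀ (x : Simp s) (u : I) (hx : x.1 ∈ Simp t),
        E' (x, u) = H (Rlz.inc t ht ⟨x.1, hx⟩, u)) := by
    intro s hs
    by_cases hc : s.card ≤ 2
    · have hs1 : s ∈ sk1 K := ⟨hs, hc⟩
      refine ⟨E s, (hE s hs1).1, (hE s hs1).2.1, ?_⟩
      intro t ht hts x u hx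
      rw [← hHE s hs1 x u]
      rfl
    · have hc3 : s.card = 3 := by have := hd s hs; omega
      have hlow : ∀ x : {x : Simp s // ∃ v ∈ s, x.1 v = 0}, ∃ t ∈ sk1 K, x.1.1 ∈ Simp t := by
        rintro ⟨x, v, hv, h0⟩
        have hx : x.1 ∈ Simp (s.erase v) := simp_of_zero x.2 (Finset.erase_subset _ _) (by
          intro w hw hw'
          have : w = v := by
            by_contra hne
            exact hw' (Finset.mem_erase.2 ⟨hne, hw⟩)
          rw [this]
          exact h0)
        refine ⟨s.erase v, ⟨hK.2 s hs _ (Finset.erase_subset _ _)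
          (Car.nonempty_of_mem_simp hx), ?_⟩, hx⟩
        rw [Finset.card_erase_of_mem hv]
        omega
      let low : {x : Simp s // ∃ v ∈ s, x.1 v = 0} → Rlz (sk1 K) := fun x => ⟨x.1.1, hlow x⟩
      have hlowc : Continuous low := by
        rw [(Rlz.isClosedEmbedding_sub hK1 hsub).isEmbedding.continuous_iff]
        exact (Rlz.continuous_inc s hs).comp continuous_subtype_val
      obtain ⟨E', hE1, hE2, hE3⟩ := prism_ext (ne_of s hs) (fun x => f (Rlz.inc s hs x))
        (hf.comp (Rlz.continuous_inc s hs)) (fun q => H (low q.1, q.2))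
        (hH1.comp ((hlowc.comp continuous_fst).prodMk continuous_snd)) (by
          intro x
          obtain ⟨t, ht, hx⟩ := hlow x
          have h1 : low x = Rlz.inc t ht ⟨x.1.1, hx⟩ := rfl
          change H (low x, 0) = _
          rw [h1, hHE, (hE t ht).2.1 ht.1]
          rfl)
      refine ⟨E', hE1, fun _ x => hE2 x, ?_⟩
      intro t ht hts x u hx
      have hne : ∃ v ∈ s, x.1 v = 0 := by
        by_contra hcon
        push Not at hcon
        have : s ⊆ t := by
          intro v hv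
          by_contra hvt
          exact hcon v hv (hx.2.1 v hvt)
        have h2 := Finset.card_le_card this
        have h3 := ht.2
        omega
      rw [hE3 x hne u]
      rfl
  choose! E' hE' using hE'
  let e' : Finset ℕ → (ℕ → ℝ) × I → Y := fun s q =>
    if h : s ∈ K ∧ q.1 ∈ Simp s then E' s (⟨q.1, h.2⟩, q.2) else y0
  have he' : ∀ s ∈ K, ∀ (x : Simp s) (u : I), e' s (x.1, u) = E' s (x, u) := by
    intro s hs x u
    exact dif_pos (⟨hs, x.2⟩ : s ∈ K ∧ (x.1, u).1 ∈ Simp s)
  obtain ⟨F, hF1, hF2⟩ := glue (K := K) e' (by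
    intro s hs
    refine ((hE' s hs).1).congr fun q => ?_
    exact (he' s hs q.1 q.2).symm) (by
    intro s hs t hts htn x hx u
    have ht : t ∈ K := hK.2 s hs t hts htn
    have hxs : x ∈ Simp s := simp_mono'' hts hx
    rw [he' s hs ⟨x, hxs⟩ u, he' t ht ⟨x, hx⟩ u]
    by_cases hst : t = s
    · subst hst
      rfl
    have hlt : t.card < s.card := Finset.card_lt_card (hts.ssubset_of_ne hst)
    have hc2 := hd s hs
    have ht1 : t ∈ sk1 K := ⟨ht, by omega⟩
    rw [(hE' s hs).2.2 t ht1 hts ⟨x, hxs⟩ u hx,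
      (hE' t ht).2.2 t ht1 (Finset.Subset.refl _) ⟨x, hx⟩ u hx])
  refine ⟨F, hF1, ?_, ?_⟩
  · rintro ⟨x, s, hs, hx⟩
    have := hF2 s hs ⟨x, hx⟩ 0
    rw [he' s hs ⟨x, hx⟩ 0, (hE' s hs).2.1 hs] at this
    exact this
  · intro s hs hc x
    have hs1 : s ∈ sk1 K := ⟨hs, hc⟩
    rw [hF2 s hs x 1, he' s hs x 1, (hE' s hs).2.2 s hs1 (Finset.Subset.refl _) x 1 x.2, hHE,
      (hE s hs1).2.2.1]

/-- The two parts together. -/
theorem p1_of (h1 : S_P1a) (h2 : S_P1b) : S_P1 := by
  intro K hK hfin hd hH Y _ f hf y0 p hp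
  obtain ⟨F, hF, hF0, hF1⟩ := h1 K hK hfin hd Y f hf y0 p hp
  obtain ⟨G, hG, hG0, hG1⟩ := h2 K hK hfin hd hH Y (fun x => F (x, 1))
    (hF.comp (Continuous.prodMk_left 1)) y0 hF1
  have e1 : (⟨f, hf⟩ : C(Rlz K, Y)).Homotopic ⟨fun x => F (x, 1), hF.comp
      (Continuous.prodMk_left 1)⟩ :=
    ⟨⟨⟨fun q => F (q.2, q.1), by fun_prop⟩, hF0, fun x => rfl⟩⟩
  have e2 : (⟨fun x => F (x, 1), hF.comp (Continuous.prodMk_left 1)⟩ : C(Rlz K, Y)).Homotopic
      (ContinuousMap.const _ y0) :=
    ⟨⟨⟨fun q => G (q.2, q.1), by fun_prop⟩, hG0, hG1⟩⟩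
  obtain ⟨H⟩ := e1.trans e2
  exact ⟨fun q => H (q.2, q.1), by fun_prop, H.apply_zero, H.apply_one⟩

end Pool.Agent.TH716.C3
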