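import Pool.Agent.TH716.C3.Tools

/-!
# Maps which are constant on the 1-skeleton
-/

set_option autoImplicit false

open unitInterval Topology

namespace Pool.Agent.TH716.C3

open Pool.Agent.Helper281.Sc

section EH
variable {Y : Type} [TopologicalSpace Y] {y0 : Y}

/-- The pointwise product of loops of loops. -/
noncomputable def tens (m m' : Path (Path.refl y0) (Path.refl y0)) : Path (Path.refl y0) (Path.refl y0) where
  toFun t := (m t).trans (m' t)
  continuous_toFun := by fun_prop
  source' := by rw [m.source, m'.source, Path.refl_trans_refl]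
  target' := by rw [m.target, m'.target, Path.refl_trans_refl]

theorem tens_apply (m m' : Path (Path.refl y0) (Path.refl y0)) (t : I) :
    tens m m' t = (m t).trans (m' t) := rfl

theorem delayReflRight_refl (s : I) : Path.delayReflRight s (Path.refl y0) = Path.refl y0 := rfl

theorem delayReflLeft_refl (s : I) : Path.delayReflLeft s (Path.refl y0) = Path.refl y0 := rfl

theorem tens_refl (m : Path (Path.refl y0) (Path.refl y0)) :
    (tens m (Path.refl _)).Homotopic m := by
  refine ⟨⟨⟨⟨fun p => Path.delayReflRight p.1 (m p.2), ?_⟩, ?_, ?_⟩, ?_⟩⟩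
  · exact Path.continuous_delayReflRight.comp
      (continuous_fst.prodMk (m.continuous.comp continuous_snd))
  · intro t
    exact Path.delayReflRight_zero _
  · intro t
    exact Path.delayReflRight_one _
  · intro t u hu
    rcases hu with rfl | rfl
    · change Path.delayReflRight t (m 0) = (m 0).trans (Path.refl _)
      rw [m.source, Path.refl_trans_refl, delayReflRight_refl]
    · change Path.delayReflRight t (m 1) = (m 1).trans (Path.refl _)
      rw [m.target, Path.refl_trans_refl, delayReflRight_refl]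

theorem refl_tens (m : Path (Path.refl y0) (Path.refl y0)) :
    (tens (Path.refl _) m).Homotopic m := by
  refine ⟨⟨⟨⟨fun p => Path.delayReflLeft p.1 (m p.2), ?_⟩, ?_, ?_⟩, ?_⟩⟩
  · exact Path.continuous_delayReflLeft.comp
      (continuous_fst.prodMk (m.continuous.comp continuous_snd))
  · intro t
    exact Path.delayReflLeft_zero _
  · intro t
    exact Path.delayReflLeft_one _
  · intro t u hu
    rcases hu with rfl | rfl
    · change Path.delayReflLeft t (m 0) = (Path.refl _).trans (m 0)
      rw [m.source, Path.refl_trans_refl, delayReflLeft_refl]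
    · change Path.delayReflLeft t (m 1) = (Path.refl _).trans (m 1)
      rw [m.target, Path.refl_trans_refl, delayReflLeft_refl]

theorem tens_trans (a b c d : Path (Path.refl y0) (Path.refl y0)) :
    tens (a.trans b) (c.trans d) = (tens a c).trans (tens b d) := by
  apply Path.ext
  funext t
  rw [tens_apply, Path.trans_apply, Path.trans_apply, Path.trans_apply]
  split_ifs <;> rfl

theorem tens_congr {a b c d : Path (Path.refl y0) (Path.refl y0)} (h1 : a.Homotopic b)
    (h2 : c.Homotopic d) : (tens a c).Homotopic (tens b d) := by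
  obtain ⟨F⟩ := h1
  obtain ⟨G⟩ := h2
  refine ⟨⟨⟨⟨fun p => (F p).trans (G p), ?_⟩, ?_, ?_⟩, ?_⟩⟩
  · exact Continuous.path_trans F.continuous G.continuous
  · intro t
    change (F (0, t)).trans (G (0, t)) = _
    rw [F.apply_zero, G.apply_zero]
    rfl
  · intro t
    change (F (1, t)).trans (G (1, t)) = _
    rw [F.apply_one, G.apply_one]
    rfl
  · intro t u hu
    change (F (t, u)).trans (G (t, u)) = (a u).trans (c u)
    rcases hu with rfl | rfl
    · rw [F.source, G.source, a.source, c.source]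
    · rw [F.target, G.target, a.target, c.target]

theorem tens_homotopic (m m' : Path (Path.refl y0) (Path.refl y0)) :
    (tens m m').Homotopic (m.trans m') := by
  have h1 : (tens m m').Homotopic (tens (m.trans (Path.refl _)) ((Path.refl _).trans m')) :=
    tens_congr (Path.Homotopic.trans_refl m).symm (Path.Homotopic.refl_trans m').symm
  rw [tens_trans] at h1
  exact h1.trans ((tens_refl m).hcomp (refl_tens m'))

end EH

/-! ### the triangle as a quotient of the square -/

/-- the middle coordinate -/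
noncomputable def bt (x y : I) : ℝ := (1 - (y : ℝ)) * min (2 * (x : ℝ)) (2 - 2 * x)

theorem continuous_bt : Continuous fun p : I × I => bt p.1 p.2 := by
  unfold bt
  fun_prop

theorem bt_nonneg (x y : I) : 0 ≤ bt x y := by
  unfold bt
  have := x.2.1
  have := x.2.2
  have := y.2.2
  refine mul_nonneg (by linarith) (le_min (by linarith) (by linarith))

theorem bt_le (x y : I) : bt x y ≤ 2 * x ∧ bt x y ≤ 2 - 2 * x := by
  have hx0 := x.2.1
  have hx1 := x.2.2
  have hy0 := y.2.1
  have hy1 := y.2.2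
  have hm : 0 ≤ min (2 * (x : ℝ)) (2 - 2 * x) := le_min (by linarith) (by linarith)
  have h : bt x y ≤ min (2 * (x : ℝ)) (2 - 2 * x) := by
    unfold bt
    nlinarith
  exact ⟨h.trans (min_le_left _ _), h.trans (min_le_right _ _)⟩

/-- the map from the square to the triangle -/
noncomputable def qt (a b c : ℕ) (p : I × I) : ℕ → ℝ := fun v =>
  (1 - (p.1 : ℝ) - bt p.1 p.2 / 2) * (if v = a then 1 else 0) +
  bt p.1 p.2 * (if v = b then 1 else 0) + ((p.1 : ℝ) - bt p.1 p.2 / 2) * (if v = c then 1 else 0)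

theorem continuous_qt (a b c : ℕ) : Continuous (qt a b c) := by
  unfold qt
  have := continuous_bt
  refine continuous_pi fun v => ?_
  fun_prop

theorem qt_mem {a b c : ℕ} (hab : a < b) (hbc : b < c) (p : I × I) :
    qt a b c p ∈ Simp ({a, b, c} : Finset ℕ) := by
  have h1 := bt_nonneg p.1 p.2
  have h2 := bt_le p.1 p.2
  refine ⟨fun v => ?_, fun v hv => ?_, ?_⟩
  · have e1 : 0 ≤ 1 - (p.1 : ℝ) - bt p.1 p.2 / 2 := by linarith
    have e2 : 0 ≤ (p.1 : ℝ) - bt p.1 p.2 / 2 := by linarith
    unfold qt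
    split_ifs <;> simp <;> linarith
  · simp only [Finset.mem_insert, Finset.mem_singleton, not_or] at hv
    unfold qt
    simp [hv.1, hv.2.1, hv.2.2]
  · have hac : a < c := hab.trans hbc
    rw [Finset.sum_insert (by simp [hab.ne, hac.ne]), Finset.sum_insert (by simp [hbc.ne]),
      Finset.sum_singleton]
    unfold qt
    simp only [if_true, if_neg hab.ne, if_neg hab.ne', if_neg hbc.ne, if_neg hbc.ne',
      if_neg hac.ne, if_neg hac.ne']
    ring

theorem qt_a {a b c : ℕ} (hab : a < b) (hbc : b < c) (p : I × I) :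
    qt a b c p a = 1 - (p.1 : ℝ) - bt p.1 p.2 / 2 := by
  have hac : a < c := hab.trans hbc
  unfold qt
  simp [hab.ne, hac.ne]

theorem qt_b {a b c : ℕ} (hab : a < b) (hbc : b < c) (p : I × I) :
    qt a b c p b = bt p.1 p.2 := by
  unfold qt
  simp [hab.ne', hbc.ne]

theorem qt_c {a b c : ℕ} (hab : a < b) (hbc : b < c) (p : I × I) :
    qt a b c p c = (p.1 : ℝ) - bt p.1 p.2 / 2 := by
  have hac : a < c := hab.trans hbc
  unfold qt
  simp [hac.ne', hbc.ne']

theorem simp_ext {a b c : ℕ} {x y : ℕ → ℝ} (hx : x ∈ Simp ({a, b, c} : Finset ℕ))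
    (hy : y ∈ Simp ({a, b, c} : Finset ℕ)) (h1 : x a = y a) (h2 : x b = y b) (h3 : x c = y c) :
    x = y := by
  funext v
  by_cases hv : v ∈ ({a, b, c} : Finset ℕ)
  · simp only [Finset.mem_insert, Finset.mem_singleton] at hv
    rcases hv with rfl | rfl | rfl <;> assumption
  · rw [hx.2.1 v hv, hy.2.1 v hv]

theorem sum3 {a b c : ℕ} (hab : a < b) (hbc : b < c) {x : ℕ → ℝ}
    (hx : x ∈ Simp ({a, b, c} : Finset ℕ)) : x a + x b + x c = 1 := by
  have hac : a < c := hab.trans hbc
  have := hx.2.2
  rw [Finset.sum_insert (by simp [hab.ne, hac.ne]), Finset.sum_insert (by simp [hbc.ne]),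
    Finset.sum_singleton] at this
  linarith

theorem qt_surj {a b c : ℕ} (hab : a < b) (hbc : b < c) {x : ℕ → ℝ}
    (hx : x ∈ Simp ({a, b, c} : Finset ℕ)) : ∃ p : I × I, qt a b c p = x := by
  have hs := sum3 hab hbc hx
  have ha := hx.1 a
  have hb := hx.1 b
  have hc := hx.1 c
  have ht : x b / 2 + x c ∈ Set.Icc (0 : ℝ) 1 := ⟨by linarith, by linarith⟩
  set τ : I := ⟨x b / 2 + x c, ht⟩ with hτ
  have key : ∃ ρ : I, bt τ ρ = x b := by
    set m := min (2 * (τ : ℝ)) (2 - 2 * τ) with hm
    have hbm : x b ≤ m := by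
      refine le_min ?_ ?_ <;> simp only [hτ] <;> linarith
    by_cases h0 : m = 0
    · refine ⟨0, ?_⟩
      unfold bt
      rw [← hm, h0]
      have : x b = 0 := by linarith
      rw [this, mul_zero]
    · have hm0 : 0 < m := lt_of_le_of_ne (hb.trans hbm) (Ne.symm h0)
      have h1 : x b / m ≤ 1 := (div_le_one hm0).2 hbm
      have h2 : 0 ≤ x b / m := div_nonneg hb hm0.le
      refine ⟨⟨1 - x b / m, by linarith, by linarith⟩, ?_⟩
      unfold bt
      rw [← hm]
      simp only [sub_sub_cancel]
      field_simp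
  obtain ⟨ρ, hρ⟩ := key
  refine ⟨(τ, ρ), simp_ext (qt_mem hab hbc _) hx ?_ ?_ ?_⟩
  · rw [qt_a hab hbc, hρ]
    simp only [hτ]
    linarith
  · rw [qt_b hab hbc, hρ]
  · rw [qt_c hab hbc, hρ]
    simp only [hτ]
    ring

theorem qt_fiber {a b c : ℕ} (hab : a < b) (hbc : b < c) {p q : I × I}
    (h : qt a b c p = qt a b c q) : p.1 = q.1 ∧ (p.2 = q.2 ∨ p.1 = 0 ∨ p.1 = 1) := by
  have h1 : qt a b c p b = qt a b c q b := by rw [h]
  have h2 : qt a b c p c = qt a b c q c := by rw [h]
  rw [qt_b hab hbc, qt_b hab hbc] at h1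
  rw [qt_c hab hbc, qt_c hab hbc, h1] at h2
  have h3 : p.1 = q.1 := by
    apply Subtype.ext
    linarith
  refine ⟨h3, ?_⟩
  by_cases h0 : p.1 = 0
  · exact Or.inr (Or.inl h0)
  by_cases h4 : p.1 = 1
  · exact Or.inr (Or.inr h4)
  left
  unfold bt at h1
  rw [← h3] at h1
  have h5 : (p.1 : ℝ) ≠ 0 := fun h => h0 (Subtype.ext h)
  have h6 : (p.1 : ℝ) ≠ 1 := fun h => h4 (Subtype.ext h)
  have h7 : 0 < (p.1 : ℝ) := lt_of_le_of_ne p.1.2.1 (Ne.symm h5)
  have h8 : (p.1 : ℝ) < 1 := lt_of_le_of_ne p.1.2.2 h6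
  have h9 : 0 < min (2 * (p.1 : ℝ)) (2 - 2 * p.1) := lt_min (by linarith) (by linarith)
  have := mul_right_cancel₀ h9.ne' h1
  apply Subtype.ext
  linarith

theorem simp_of_zero {s t : Finset ℕ} {x : ℕ → ℝ} (hx : x ∈ Simp s) (hts : t ⊆ s)
    (h : ∀ v ∈ s, v ∉ t → x v = 0) : x ∈ Simp t := by
  refine ⟨hx.1, fun v hv => ?_, ?_⟩
  · by_cases hs : v ∈ s
    · exact h v hs hv
    · exact hx.2.1 v hs
  · rw [← hx.2.2]
    exact Finset.sum_subset hts h

section tri

variable {K : Set (Finset ℕ)} {Y : Type} [TopologicalSpace Y] {y0 : Y}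

theorem f_qt_zero (hK : IsCx K) {a b c : ℕ} (hab : a < b) (hbc : b < c)
    (h : ({a, b, c} : Finset ℕ) ∈ K) {f : Rlz K → Y}
    (hf1 : ∀ (s : Finset ℕ) (hs : s ∈ K), s.card ≤ 2 → ∀ x : Simp s, f (Rlz.inc s hs x) = y0)
    (p : I × I) (hp : qt a b c p a = 0 ∨ qt a b c p b = 0 ∨ qt a b c p c = 0) :
    f (Rlz.inc _ h ⟨qt a b c p, qt_mem hab hbc p⟩) = y0 := by
  have hac : a < c := hab.trans hbc
  have key : ∀ t : Finset ℕ, t ∈ K → t.card ≤ 2 → ∀ ht : qt a b c p ∈ Simp t,
      f (Rlz.inc _ h ⟨qt a b c p, qt_mem hab hbc p⟩) = y0 := by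
    intro t ht hc hx
    exact hf1 t ht hc ⟨_, hx⟩
  rcases hp with h0 | h0 | h0
  · refine key {b, c} (hK.2 _ h _ (by simp) (by simp)) Finset.card_le_two ?_
    refine simp_of_zero (qt_mem hab hbc p) (by simp) ?_
    intro v hv hv'
    simp only [Finset.mem_insert, Finset.mem_singleton, not_or] at hv hv'
    rcases hv with rfl | rfl | rfl
    · exact h0
    · exact absurd rfl hv'.1
    · exact absurd rfl hv'.2
  · refine key {a, c} (hK.2 _ h _ (by
      intro x hx
      simp only [Finset.mem_insert, Finset.mem_singleton] at hx ⊢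
      tauto) (by simp)) Finset.card_le_two ?_
    refine simp_of_zero (qt_mem hab hbc p) (by
      intro x hx
      simp only [Finset.mem_insert, Finset.mem_singleton] at hx ⊢
      tauto) ?_
    intro v hv hv'
    simp only [Finset.mem_insert, Finset.mem_singleton, not_or] at hv hv'
    rcases hv with rfl | rfl | rfl
    · exact absurd rfl hv'.1
    · exact h0
    · exact absurd rfl hv'.2
  · refine key {a, b} (hK.2 _ h _ (by
      intro x hx
      simp only [Finset.mem_insert, Finset.mem_singleton] at hx ⊢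
      tauto) (by simp)) Finset.card_le_two ?_
    refine simp_of_zero (qt_mem hab hbc p) (by
      intro x hx
      simp only [Finset.mem_insert, Finset.mem_singleton] at hx ⊢
      tauto) ?_
    intro v hv hv'
    simp only [Finset.mem_insert, Finset.mem_singleton, not_or] at hv hv'
    rcases hv with rfl | rfl | rfl
    · exact absurd rfl hv'.1
    · exact absurd rfl hv'.2
    · exact h0

theorem continuous_fq {a b c : ℕ} (hab : a < b) (hbc : b < c)
    (h : ({a, b, c} : Finset ℕ) ∈ K) {f : Rlz K → Y} (hf : Continuous f) :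
    Continuous fun p : I × I => f (Rlz.inc _ h ⟨qt a b c p, qt_mem hab hbc p⟩) :=
  hf.comp ((Rlz.continuous_inc _ h).comp (Continuous.subtype_mk (continuous_qt a b c) _))

theorem bt_zero_left (y : I) : bt 0 y = 0 := by
  unfold bt
  simp

theorem bt_one_left (y : I) : bt 1 y = 0 := by
  unfold bt
  simp

theorem bt_one_right (x : I) : bt x 1 = 0 := by
  unfold bt
  simp

theorem bt_zero_right (x : I) : bt x 0 = min (2 * (x : ℝ)) (2 - 2 * x) := by
  unfold bt
  simp

/-- The loop of loops of a triangle. -/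
noncomputable def dl (hK : IsCx K) {a b c : ℕ} (hab : a < b) (hbc : b < c)
    (h : ({a, b, c} : Finset ℕ) ∈ K) (f : Rlz K → Y) (hf : Continuous f)
    (hf1 : ∀ (s : Finset ℕ) (hs : s ∈ K), s.card ≤ 2 → ∀ x : Simp s, f (Rlz.inc s hs x) = y0) :
    Path (Path.refl y0) (Path.refl y0) where
  toFun r :=
    { toFun := fun t => f (Rlz.inc _ h ⟨qt a b c (t, r), qt_mem hab hbc (t, r)⟩)
      continuous_toFun := (continuous_fq hab hbc h hf).comp (Continuous.prodMk_left r)
      source' := f_qt_zero hK hab hbc h hf1 (0, r) (Or.inr (Or.inl (by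
        rw [qt_b hab hbc]; exact bt_zero_left r)))
      target' := f_qt_zero hK hab hbc h hf1 (1, r) (Or.inr (Or.inl (by
        rw [qt_b hab hbc]; exact bt_one_left r))) }
  continuous_toFun := by
    rw [← Path.continuous_uncurry_iff]
    exact (continuous_fq hab hbc h hf).comp (continuous_snd.prodMk continuous_fst)
  source' := by
    apply Path.ext
    funext t
    refine f_qt_zero hK hab hbc h hf1 (t, 0) ?_
    rw [qt_a hab hbc, qt_c hab hbc]
    simp only [bt_zero_right]
    rcases le_total (2 * (t : ℝ)) (2 - 2 * t) with h1 | h1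
    · right; right
      rw [min_eq_left h1]
      ring
    · left
      rw [min_eq_right h1]
      ring
  target' := by
    apply Path.ext
    funext t
    refine f_qt_zero hK hab hbc h hf1 (t, 1) (Or.inr (Or.inl ?_))
    rw [qt_b hab hbc]
    exact bt_one_right t

/-- clamp -/
noncomputable def clm (x : ℝ) : I := Set.projIcc 0 1 zero_le_one x

theorem clm_coe (x : I) : clm (x : ℝ) = x := Set.projIcc_val _ _

theorem clm_val {x : ℝ} (h0 : 0 ≤ x) (h1 : x ≤ 1) : ((clm x : I) : ℝ) = x := by
  unfold clm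
  rw [Set.projIcc_of_mem _ ⟨h0, h1⟩]

theorem continuous_clm : Continuous clm := continuous_projIcc (h := zero_le_one)

/-- The homotopy on a triangle. -/
theorem tri (hK : IsCx K) {a b c : ℕ} (hab : a < b) (hbc : b < c)
    (h : ({a, b, c} : Finset ℕ) ∈ K) (f : Rlz K → Y) (hf : Continuous f)
    (hf1 : ∀ (s : Finset ℕ) (hs : s ∈ K), s.card ≤ 2 → ∀ x : Simp s, f (Rlz.inc s hs x) = y0)
    (mab mbc mac : Path (Path.refl y0) (Path.refl y0))
    (hm : ((dl hK hab hbc h f hf hf1).trans mac).Homotopic (mab.trans mbc)) :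
    ∃ E : Simp ({a, b, c} : Finset ℕ) × I → Y, Continuous E ∧
      (∀ x, E (x, 0) = f (Rlz.inc _ h x)) ∧ (∀ x, E (x, 1) = y0) ∧
      (∀ x t, x.1 c = 0 → E (x, t) = mab t (clm (x.1 b))) ∧
      (∀ x t, x.1 a = 0 → E (x, t) = mbc t (clm (x.1 c))) ∧
      (∀ x t, x.1 b = 0 → E (x, t) = mac t (clm (x.1 c))) := by
  have hm' : ((dl hK hab hbc h f hf hf1).trans mac).Homotopic
      ((tens mab mbc).trans (Path.refl _)) :=
    hm.trans ((tens_homotopic mab mbc).symm.trans (Path.Homotopic.trans_refl _).symm)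
  obtain ⟨G, hG, g1, g2, g3, g4⟩ := square_fill _ _ _ _ hm'
  obtain ⟨E, hE, hE'⟩ := descend (D := (I × I) × I) (B := Simp ({a, b, c} : Finset ℕ) × I)
    (fun p => (⟨qt a b c p.1, qt_mem hab hbc p.1⟩, p.2))
    ((Continuous.subtype_mk ((continuous_qt a b c).comp continuous_fst) _).prodMk continuous_snd)
    (by
      rintro ⟨⟨x, hx⟩, t⟩
      obtain ⟨p, rfl⟩ := qt_surj hab hbc hx
      exact ⟨(p, t), rfl⟩)
    (fun p => G (p.1.2, p.2) p.1.1)
    (by
      have h1 : Continuous fun p : (I × I) × I => G (p.1.2, p.2) :=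
        hG.comp ((continuous_snd.comp continuous_fst).prodMk continuous_snd)
      exact h1.eval (continuous_fst.comp continuous_fst))
    (by
      rintro ⟨p, t⟩ ⟨q, t'⟩ he
      simp only [Prod.mk.injEq, Subtype.mk.injEq] at he
      obtain ⟨he, rfl⟩ := he
      obtain ⟨h1, h2⟩ := qt_fiber hab hbc he
      simp only
      rcases h2 with h2 | h2 | h2
      · rw [h1, h2]
      · rw [← h1, h2, Path.source, Path.source]
      · rw [← h1, h2, Path.target, Path.target])
  have key : ∀ (x : Simp ({a, b, c} : Finset ℕ)) (p : I × I), qt a b c p = x.1 → ∀ t,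
      E (x, t) = G (p.2, t) p.1 := by
    rintro ⟨x, hx⟩ p rfl t
    exact hE' (p, t)
  refine ⟨E, hE, ?_, ?_, ?_, ?_, ?_⟩
  · rintro ⟨x, hx⟩
    obtain ⟨p, rfl⟩ := qt_surj hab hbc hx
    rw [key _ p rfl, g1]
    rfl
  · rintro ⟨x, hx⟩
    obtain ⟨p, rfl⟩ := qt_surj hab hbc hx
    rw [key _ p rfl, g4]
    rfl
  · rintro ⟨x, hx⟩ t h0
    have hs := sum3 hab hbc hx
    have ha := hx.1 a
    have hb := hx.1 b
    simp only at h0 ⊢
    have hb1 : x b ≤ 1 := by linarith
    set u : I := ⟨x b / 2, by linarith, by linarith⟩ with hu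
    have hbt : bt u 0 = x b := by
      rw [bt_zero_right, min_eq_left]
      · simp only [hu]; ring
      · simp only [hu]; linarith
    have hq : qt a b c (u, 0) = x := by
      refine simp_ext (qt_mem hab hbc _) hx ?_ ?_ ?_
      · rw [qt_a hab hbc]
        simp only [hbt]
        simp only [hu]
        linarith
      · rw [qt_b hab hbc]
        exact hbt
      · rw [qt_c hab hbc]
        simp only [hbt]
        simp only [hu]
        linarith
    rw [key ⟨x, hx⟩ (u, 0) hq, g3]
    change (tens mab mbc t) u = _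
    rw [tens_apply, Path.trans_apply, dif_pos (by simp only [hu]; linarith)]
    congr 1
    apply Subtype.ext
    rw [clm_val hb hb1]
    simp only [hu]
    ring
  · rintro ⟨x, hx⟩ t h0
    have hs := sum3 hab hbc hx
    have hb := hx.1 b
    have hc := hx.1 c
    simp only at h0 ⊢
    have hc1 : x c ≤ 1 := by linarith
    set u : I := ⟨x b / 2 + x c, by linarith, by linarith⟩ with hu
    have hbt : bt u 0 = x b := by
      rw [bt_zero_right, min_eq_right]
      · simp only [hu]; linarith
      · simp only [hu]; linarith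
    have hq : qt a b c (u, 0) = x := by
      refine simp_ext (qt_mem hab hbc _) hx ?_ ?_ ?_
      · rw [qt_a hab hbc]
        simp only [hbt]
        simp only [hu]
        linarith
      · rw [qt_b hab hbc]
        exact hbt
      · rw [qt_c hab hbc]
        simp only [hbt]
        simp only [hu]
        linarith
    rw [key ⟨x, hx⟩ (u, 0) hq, g3]
    change (tens mab mbc t) u = _
    rw [tens_apply]
    have e : u = avg 1 (clm (x c)) := by
      apply Subtype.ext
      simp only [avg, clm_val hc hc1, hu, Set.Icc.coe_one]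
      linarith
    rw [e, trans_avg_right]
  · rintro ⟨x, hx⟩ t h0
    have hs := sum3 hab hbc hx
    have ha := hx.1 a
    have hc := hx.1 c
    simp only at h0 ⊢
    have hc1 : x c ≤ 1 := by linarith
    have hq : qt a b c (clm (x c), 1) = x := by
      refine simp_ext (qt_mem hab hbc _) hx ?_ ?_ ?_
      · rw [qt_a hab hbc]
        simp only [bt_one_right, clm_val hc hc1]
        linarith
      · rw [qt_b hab hbc]
        simp only [bt_one_right]
        exact h0.symm
      · rw [qt_c hab hbc]
        simp only [bt_one_right, clm_val hc hc1]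
        ring
    rw [key ⟨x, hx⟩ (clm (x c), 1) hq, g2]

end tri

theorem sort_two {s : Finset ℕ} (h : s.card = 2) : ∃ a b, a < b ∧ s = {a, b} := by
  obtain ⟨x, y, hxy, rfl⟩ := Finset.card_eq_two.1 h
  rcases lt_or_gt_of_ne hxy with h1 | h1
  · exact ⟨x, y, h1, rfl⟩
  · exact ⟨y, x, h1, Finset.pair_comm _ _⟩

theorem sort_three {s : Finset ℕ} (h : s.card = 3) : ∃ a b c, a < b ∧ b < c ∧ s = {a, b, c} := by
  obtain ⟨x, y, z, hxy, hxz, hyz, rfl⟩ := Finset.card_eq_three.1 h
  rcases lt_or_gt_of_ne hxy with h1 | h1 <;> rcases lt_or_gt_of_ne hxz with h2 | h2 <;>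
    rcases lt_or_gt_of_ne hyz with h3 | h3
  · exact ⟨x, y, z, h1, h3, rfl⟩
  · exact ⟨x, z, y, h2, h3, by ext; simp; tauto⟩
  · omega
  · exact ⟨z, x, y, h2, h1, by ext; simp; tauto⟩
  · exact ⟨y, x, z, h1, h2, by ext; simp; tauto⟩
  · omega
  · exact ⟨y, z, x, h3, h2, by ext; simp; tauto⟩
  · exact ⟨z, y, x, h3, h1, by ext; simp; tauto⟩

theorem simp_single {a : ℕ} {x : ℕ → ℝ} (hx : x ∈ Simp ({a} : Finset ℕ)) : x a = 1 := by
  have := hx.2.2
  simpa using this

theorem p1b (hcomm : S_comm) : S_P1b := by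
  classical
  intro K hK _ hd hH Y _ f hf y0 hf1
  let G := FundamentalGroup (Path y0 y0) (Path.refl y0)
  letI : CommGroup G := { (inferInstance : Group G) with
    mul_comm := hcomm Y y0 y0 (Path.refl y0) }
  let D : ℕ → ℕ → ℕ → Additive G := fun a b c =>
    if h : a < b ∧ b < c ∧ ({a, b, c} : Finset ℕ) ∈ K then
      Additive.ofMul (FundamentalGroup.fromPath (Path.Homotopic.Quotient.mk
        (dl hK h.1 h.2.1 h.2.2 f hf hf1))) else 0
  obtain ⟨m, hm⟩ := hH (Additive G) D
  have hμ : ∀ a b, ∃ μ : Path (Path.refl y0) (Path.refl y0),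
      Path.Homotopic.Quotient.mk μ = Additive.toMul (m a b) := fun a b =>
    Path.Homotopic.Quotient.mk_surjective _
  choose μ hμ using hμ
  have htri : ∀ a b c (hab : a < b) (hbc : b < c) (h : ({a, b, c} : Finset ℕ) ∈ K),
      ((dl hK hab hbc h f hf hf1).trans (μ a c)).Homotopic ((μ a b).trans (μ b c)) := by
    intro a b c hab hbc h
    have h1 := hm a b c hab hbc h
    have h2 : D a b c = Additive.ofMul (FundamentalGroup.fromPath (Path.Homotopic.Quotient.mk
        (dl hK hab hbc h f hf hf1))) := dif_pos ⟨hab, hbc, h⟩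
    rw [h2, sub_eq_iff_eq_add] at h1
    have h3 : (Additive.toMul (m a b) : G) * Additive.toMul (m b c) =
        (FundamentalGroup.fromPath (Path.Homotopic.Quotient.mk
        (dl hK hab hbc h f hf hf1)) : G) * Additive.toMul (m a c) := congrArg Additive.toMul h1
    rw [← Path.Homotopic.Quotient.eq, Path.Homotopic.Quotient.mk_trans,
      Path.Homotopic.Quotient.mk_trans, hμ, hμ, hμ]
    rw [mul_comm (Additive.toMul (m a b) : G), mul_comm _ (Additive.toMul (m a c) : G)] at h3
    exact h3.symm
  -- the pieces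
  have hE : ∀ s ∈ K, ∃ E : Simp s × I → Y, Continuous E ∧
      (∀ (hs : s ∈ K) x, E (x, 0) = f (Rlz.inc s hs x)) ∧ (∀ x, E (x, 1) = y0) ∧
      (∀ a b, a < b → ({a, b} : Finset ℕ) ⊆ s → ∀ x t, x.1 ∈ Simp ({a, b} : Finset ℕ) →
        E (x, t) = μ a b t (clm (x.1 b))) ∧
      (∀ a ∈ s, ∀ x t, x.1 ∈ Simp ({a} : Finset ℕ) → E (x, t) = y0) := by
    intro s hs
    have hne : s.Nonempty := by
      rw [Finset.nonempty_iff_ne_empty]
      rintro rfl
      exact hK.1 hs
    have hc1 := hne.card_pos
    have hc2 := hd s hs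
    have hcase : s.card = 1 ∨ s.card = 2 ∨ s.card = 3 := by omega
    rcases hcase with h | h | h
    · obtain ⟨a, rfl⟩ := Finset.card_eq_one.1 h
      refine ⟨fun _ => y0, continuous_const, ?_, fun _ => rfl, ?_, fun _ _ _ _ _ => rfl⟩
      · intro hs x
        exact (hf1 _ hs (by simp) x).symm
      · intro a' b' hab hsub
        exfalso
        have h1 := hsub (Finset.mem_insert_self a' {b'})
        have h2 := hsub (Finset.mem_insert_of_mem (Finset.mem_singleton_self b'))
        rw [Finset.mem_singleton] at h1 h2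
        omega
    · obtain ⟨a, b, hab, rfl⟩ := sort_two h
      have hv : ∀ a' ∈ ({a, b} : Finset ℕ), ∀ (x : Simp ({a, b} : Finset ℕ)) (t : I),
          x.1 ∈ Simp ({a'} : Finset ℕ) → μ a b t (clm (x.1 b)) = y0 := by
        intro a' ha' x t hx
        simp only [Finset.mem_insert, Finset.mem_singleton] at ha'
        rcases ha' with rfl | rfl
        · have : x.1 b = 0 := hx.2.1 b (by simp [hab.ne'])
          rw [this]
          have e : clm 0 = 0 := clm_coe 0
          rw [e, Path.source]
        · rw [simp_single hx]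
          have e : clm 1 = 1 := clm_coe 1
          rw [e, Path.target]
      refine ⟨fun p => μ a b p.2 (clm (p.1.1 b)), ?_, ?_, ?_, ?_, hv⟩
      · have h1 : Continuous fun p : Simp ({a, b} : Finset ℕ) × I => μ a b p.2 :=
          (μ a b).continuous.comp continuous_snd
        exact h1.eval (continuous_clm.comp ((continuous_apply b).comp
          (continuous_subtype_val.comp continuous_fst)))
      · intro hs x
        rw [hf1 _ hs Finset.card_le_two x]
        change μ a b 0 (clm (x.1 b)) = y0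
        rw [Path.source]
        rfl
      · intro x
        change μ a b 1 (clm (x.1 b)) = y0
        rw [Path.target]
        rfl
      · intro a' b' hab' hsub x t _
        have h1 := hsub (Finset.mem_insert_self a' {b'})
        have h2 := hsub (Finset.mem_insert_of_mem (Finset.mem_singleton_self b'))
        simp only [Finset.mem_insert, Finset.mem_singleton] at h1 h2
        have e1 : a' = a := by omega
        have e2 : b' = b := by omega
        rw [e1, e2]
    · obtain ⟨a, b, c, hab, hbc, rfl⟩ := sort_three h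
      have hac : a < c := hab.trans hbc
      obtain ⟨E, hE, e0, e1, e2, e3, e4⟩ := tri hK hab hbc hs f hf hf1 (μ a b) (μ b c) (μ a c)
        (htri a b c hab hbc hs)
      refine ⟨E, hE, fun _ x => e0 x, e1, ?_, ?_⟩
      · intro a' b' hab' hsub x t hx
        have h1 := hsub (Finset.mem_insert_self a' {b'})
        have h2 := hsub (Finset.mem_insert_of_mem (Finset.mem_singleton_self b'))
        simp only [Finset.mem_insert, Finset.mem_singleton] at h1 h2
        have hcases : (a' = a ∧ b' = b) ∨ (a' = b ∧ b' = c) ∨ (a' = a ∧ b' = c) := by omega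
        rcases hcases with ⟨rfl, rfl⟩ | ⟨rfl, rfl⟩ | ⟨rfl, rfl⟩
        · exact e2 x t (hx.2.1 c (by simp [hac.ne', hbc.ne']))
        · exact e3 x t (hx.2.1 a (by simp [hab.ne, hac.ne]))
        · exact e4 x t (hx.2.1 b (by simp [hab.ne', hbc.ne]))
      · intro a' ha' x t hx
        simp only [Finset.mem_insert, Finset.mem_singleton] at ha'
        rcases ha' with rfl | rfl | rfl
        · rw [e2 x t (hx.2.1 c (by simp [hac.ne'])), hx.2.1 b (by simp [hab.ne'])]
          have e : clm 0 = 0 := clm_coe 0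
          rw [e, Path.source]
        · rw [e2 x t (hx.2.1 c (by simp [hbc.ne'])), simp_single hx]
          have e : clm 1 = 1 := clm_coe 1
          rw [e, Path.target]
        · rw [e3 x t (hx.2.1 a (by simp [hac.ne])), simp_single hx]
          have e : clm 1 = 1 := clm_coe 1
          rw [e, Path.target]
  have hYne : Nonempty Y := ⟨y0⟩
  choose! E hE using hE
  let e : Finset ℕ → (ℕ → ℝ) × I → Y := fun s p =>
    if h : s ∈ K ∧ p.1 ∈ Simp s then E s (⟨p.1, h.2⟩, p.2) else y0
  have he : ∀ s ∈ K, ∀ (x : Simp s) (u : I), e s (x.1, u) = E s (x, u) := by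
    intro s hs x u
    exact dif_pos (⟨hs, x.2⟩ : s ∈ K ∧ (x.1, u).1 ∈ Simp s)
  obtain ⟨H, hH1, hH2⟩ := glue (K := K) e (by
    intro s hs
    refine ((hE s hs).1).congr fun p => ?_
    exact (he s hs p.1 p.2).symm) (by
    intro s hs t hts htn x hx u
    have ht : t ∈ K := hK.2 s hs t hts htn
    have hxs : x ∈ Simp s := by
      refine ⟨hx.1, fun v hv => hx.2.1 v fun h2 => hv (hts h2), ?_⟩
      rw [← hx.2.2]
      symm
      exact Finset.sum_subset hts fun v _ hv => hx.2.1 v hv
    rw [he s hs ⟨x, hxs⟩ u, he t ht ⟨x, hx⟩ u]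
    by_cases hst : t = s
    · subst hst
      rfl
    have hlt : t.card < s.card := Finset.card_lt_card (hts.ssubset_of_ne hst)
    have hc2 := hd s hs
    have hc1 := htn.card_pos
    have hcase : t.card = 1 ∨ t.card = 2 := by omega
    rcases hcase with h | h
    · obtain ⟨a, rfl⟩ := Finset.card_eq_one.1 h
      rw [(hE s hs).2.2.2.2 a (hts (Finset.mem_singleton_self a)) ⟨x, hxs⟩ u hx,
        (hE _ ht).2.2.2.2 a (Finset.mem_singleton_self a) ⟨x, hx⟩ u hx]
    · obtain ⟨a, b, hab, rfl⟩ := sort_two h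
      rw [(hE s hs).2.2.2.1 a b hab hts ⟨x, hxs⟩ u hx,
        (hE _ ht).2.2.2.1 a b hab (Finset.Subset.refl _) ⟨x, hx⟩ u hx])
  refine ⟨H, hH1, ?_, ?_⟩
  · rintro ⟨x, s, hs, hx⟩
    have := hH2 s hs ⟨x, hx⟩ 0
    rw [he s hs ⟨x, hx⟩ 0, (hE s hs).2.1 hs] at this
    exact this
  · rintro ⟨x, s, hs, hx⟩
    have := hH2 s hs ⟨x, hx⟩ 1
    rw [he s hs ⟨x, hx⟩ 1, (hE s hs).2.2.1] at this
    exact this

end Pool.Agent.TH716.C3
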