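import Mathlib
import Pool.Agent.Helper281.Sc.Constr
import Pool.Agent.Helper281.Sc.Dom

/-!
# Contractibility of complexes of dimension at most three: definitions

Simplicial complexes are families of finite sets as in `Helper281.Sc`: `IsCx`, `Simp`, `Rlz`
(geometric realization with the weak topology), `Ctr` (contractible), `Gad` (a disc glued along a
closed walk), `nx` (cyclic successor).
-/

set_option autoImplicit false

open unitInterval Topology

namespace Pool.Agent.TH716.C3

open Pool.Agent.Helper281.Sc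

/-! ### cocycles -/

/-- A cocycle on a complex with values in a group. -/
def Coc {V G : Type} [Group G] (L : Set (Finset V)) (C : V → V → G) : Prop :=
  ∀ s ∈ L, ∀ u ∈ s, ∀ v ∈ s, ∀ w ∈ s, C u v * C v w = C u w

/-! ### words -/

/-- The value of a word at a family of group elements. -/
def ev {G : Type} [Group G] (γ : ℕ → G) (r : List (ℕ × Bool)) : G :=
  (r.map fun x => if x.2 then γ x.1 else (γ x.1)⁻¹).prod

/-- The closed walk of a word: the letter `x` is the circle `0, 2x+1, 2x+2, 0`. -/
def wv (r : List (ℕ × Bool)) (i : ℕ) : ℕ :=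
  match r[i / 3]? with
  | none => 0
  | some (x, b) => if i % 3 = 0 then 0 else if decide (i % 3 = 1) = b then 2 * x + 1 else 2 * x + 2

/-- The holonomy of the `h`-th circle. -/
def hl {G : Type} [Group G] (C : ℕ → ℕ → G) (h : ℕ) : G :=
  C 0 (2 * h + 1) * C (2 * h + 1) (2 * h + 2) * C (2 * h + 2) 0

/-! ### complexes -/

/-- A wedge of `p` circles `0, 2j+1, 2j+2, 0`. -/
def Th (p : ℕ) : Set (Finset ℕ) :=
  {s | s.Nonempty ∧ (s = {0} ∨ ∃ j < p, s ⊆ {0, 2 * j + 1} ∨ s ⊆ {2 * j + 1, 2 * j + 2} ∨
    s ⊆ {0, 2 * j + 2})}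

/-- The relator `g⁻¹ h g h⁻²`, where `g` is the value of `g` at `h`. -/
def rl (g : ℕ → ℕ) (h : ℕ) : List (ℕ × Bool) :=
  [(g h, false), (h, true), (g h, true), (h, false), (h, false)]

/-- The triangulated presentation complex of `⟨0, ..., N-1 | (g h)⁻¹ h (g h) = h²⟩`. -/
def Kp (N : ℕ) (g : ℕ → ℕ) : Set (Finset ℕ) :=
  Th N ∪ {s | ∃ h < N, s ∈ Gad 14 (wv (rl g h)) (fun i => 2 * N + 1 + 16 * h + i)
    (2 * N + 1 + 16 * h + 15)}

/-- All vertices of `Kp N g` are smaller than this number. -/
def cN (N : ℕ) : ℕ := 18 * N + 1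

/-- The product of two complexes, with the standard triangulation. -/
def Pr (K T : Set (Finset ℕ)) : Set (Finset (ℕ × ℕ)) :=
  {s | s.image Prod.fst ∈ K ∧ s.image Prod.snd ∈ T ∧ ∀ x ∈ s, ∀ y ∈ s, x ≤ y ∨ y ≤ x}

/-- The closed walk: first around the `j`-th circle of the second factor, then along `r`. -/
def wk (j : ℕ) (r : List (ℕ × Bool)) (i : ℕ) : ℕ × ℕ :=
  if i = 0 then (0, 0) else if i = 1 then (0, 2 * j + 1) else if i = 2 then (0, 2 * j + 2) else
    (wv r (i - 3), 0)

/-- The product of `K` with a wedge of circles, with a disc glued for each word in `rs`. -/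
def Lc (K : Set (Finset ℕ)) (rs : List (List (ℕ × Bool))) : Set (Finset ((ℕ × ℕ) ⊕ (ℕ × ℕ))) :=
  {s | ∃ t ∈ Pr K (Th rs.length), s = t.image Sum.inl} ∪
    {s | ∃ j < rs.length, s ∈ Gad (2 + 3 * (rs.getD j []).length)
      (fun i => Sum.inl (wk j (rs.getD j []) i)) (fun i => Sum.inr (j, i))
      (Sum.inr (j, 3 + 3 * (rs.getD j []).length))}

/-- The cone with apex `c`. -/
def Cn (K : Set (Finset ℕ)) (c : ℕ) : Set (Finset ℕ) :=
  {s | s.Nonempty ∧ (s.erase c = ∅ ∨ s.erase c ∈ K)}

/-! ### points and edges of the realization -/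

section
variable {V : Type} [DecidableEq V] {K : Set (Finset V)}

/-- A vertex of the realization. -/
def vt (v : V) (hv : ({v} : Finset V) ∈ K) : Rlz K :=
  ⟨fun w => if w = v then 1 else 0, {v}, hv, fun w => by dsimp only; split_ifs <;> norm_num,
    fun w hw => if_neg (by simpa using hw), by simp⟩

theorem left_mem (hK : IsCx K) {a b : V} (h : ({a, b} : Finset V) ∈ K) : ({a} : Finset V) ∈ K :=
  hK.2 _ h _ (by simp) (by simp)

theorem right_mem (hK : IsCx K) {a b : V} (h : ({a, b} : Finset V) ∈ K) : ({b} : Finset V) ∈ K :=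
  hK.2 _ h _ (by simp) (by simp)

theorem ed_mem (hK : IsCx K) {a b : V} (h : ({a, b} : Finset V) ∈ K) (t : I) :
    (fun w => (1 - (t : ℝ)) * (if w = a then 1 else 0) + (t : ℝ) * (if w = b then 1 else 0)) ∈
      Simp ({a, b} : Finset V) := by
  refine ⟨fun w => ?_, fun w hw => ?_, ?_⟩
  · have h0 := t.2.1
    have h1 := t.2.2
    have : 0 ≤ 1 - (t : ℝ) := by linarith
    dsimp only
    split_ifs <;> simp <;> linarith
  · simp only [Finset.mem_insert, Finset.mem_singleton, not_or] at hw
    simp [hw.1, hw.2]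
  · rw [Finset.sum_add_distrib, ← Finset.mul_sum, ← Finset.mul_sum]
    simp

/-- The edge from `a` to `b` (the constant path for `a = b`). -/
def ed (hK : IsCx K) (a b : V) (h : ({a, b} : Finset V) ∈ K) :
    Path (vt a (left_mem hK h)) (vt b (right_mem hK h)) where
  toFun t := ⟨fun w => (1 - (t : ℝ)) * (if w = a then 1 else 0) + (t : ℝ) * (if w = b then 1 else 0),
    {a, b}, h, ed_mem hK h t⟩
  continuous_toFun := by
    have h1 : Continuous fun t : I => (⟨_, ed_mem hK h t⟩ : Simp ({a, b} : Finset V)) := by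
      refine Continuous.subtype_mk ?_ _
      refine continuous_pi fun w => ?_
      fun_prop
    exact (Rlz.continuous_inc _ h).comp h1
  source' := by
    apply Subtype.ext
    funext w
    simp [vt]
  target' := by
    apply Subtype.ext
    funext w
    simp [vt]

/-- The tautological cocycle of a map `f` from the realization of `K` to `Y`, with values in the
fundamental group of `Y` at `y0`, for given paths `p` from the images of the vertices to `y0`. -/
noncomputable def tC (hK : IsCx K) {Y : Type} [TopologicalSpace Y] (f : Rlz K → Y)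
    (hf : Continuous f) (y0 : Y) (p : ∀ (v : V) (hv : ({v} : Finset V) ∈ K), Path (f (vt v hv)) y0)
    (a b : V) : FundamentalGroup Y y0 :=
  open Classical in
  if h : ({b, a} : Finset V) ∈ K then
    FundamentalGroup.fromPath (Path.Homotopic.Quotient.mk
      (((p b (left_mem hK h)).symm.trans ((ed hK b a h).map hf)).trans (p a (right_mem hK h))))
  else 1

end

/-- The inclusion of `K` as the level `0` in `Lc K rs`. -/
noncomputable def i0 (K : Set (Finset ℕ)) (rs : List (List (ℕ × Bool))) (x : Rlz K) :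
    Rlz (Lc K rs) :=
  ⟨fun w => match w with
    | Sum.inl (v, a) => if a = 0 then x.1 v else 0
    | Sum.inr _ => 0, by
    obtain ⟨x, s, hs, hx⟩ := x
    refine ⟨(s.image fun v => (v, 0)).image Sum.inl, Or.inl ⟨s.image fun v => (v, 0), ⟨?_, ?_, ?_⟩,
      rfl⟩, ?_, ?_, ?_⟩
    · rw [Finset.image_image]
      have : (Prod.fst ∘ fun v : ℕ => (v, 0)) = id := rfl
      rwa [this, Finset.image_id]
    · rw [Finset.image_image]
      have hne : s.Nonempty := by
        rw [Finset.nonempty_iff_ne_empty]
        rintro rfl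
        have := hx.2.2
        simp at this
      refine ⟨hne.image _, Or.inl ?_⟩
      ext v
      simp only [Finset.mem_image, Function.comp_apply, Finset.mem_singleton]
      constructor
      · rintro ⟨_, _, rfl⟩; rfl
      · rintro rfl
        obtain ⟨w, hw⟩ := hne
        exact ⟨w, hw, rfl⟩
    · intro x hx y hy
      simp only [Finset.mem_image] at hx hy
      obtain ⟨u, _, rfl⟩ := hx
      obtain ⟨v, _, rfl⟩ := hy
      rcases le_total u v with h | h
      · exact Or.inl (Prod.mk_le_mk.2 ⟨h, le_rfl⟩)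
      · exact Or.inr (Prod.mk_le_mk.2 ⟨h, le_rfl⟩)
    · rintro (⟨v, a⟩ | w)
      · dsimp only
        split_ifs
        · exact hx.1 v
        · exact le_rfl
      · exact le_rfl
    · rintro (⟨v, a⟩ | w) hw
      · dsimp only
        split_ifs with h
        · subst h
          apply hx.2.1
          intro hv
          exact hw (by simpa using hv)
        · rfl
      · rfl
    · rw [Finset.sum_image (by simp), Finset.sum_image (by simp)]
      simpa using hx.2.2⟩

/-! ### the group presentations -/

/-- The map `h ↦ g h` of the presentations used. -/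
def gN (m h : ℕ) : ℕ :=
  if h < m + 2 then m + 2 + h else if h < 2 * m + 4 then 2 * m + 4 else
    if h = 2 * m + 4 then 2 * m + 5 else m + 1

/-- Substitution `x_i ↦ v_{i+1} v_0⁻¹`. -/
def sw {m : ℕ} (l : List (Fin m × Bool)) : List (ℕ × Bool) :=
  l.flatMap fun x => if x.2 then [(x.1.1 + 1, true), (0, false)] else [(0, true), (x.1.1 + 1, false)]

/-- The inverse word. -/
def iw {m : ℕ} (l : List (Fin m × Bool)) : List (Fin m × Bool) :=
  (l.map fun x => (x.1, !x.2)).reverse

/-- The words made central. -/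
def rsn {m : ℕ} (R : List (List (Fin m × Bool))) (w : List (Fin m × Bool)) :
    List (List (ℕ × Bool)) :=
  (R.map fun r => sw r ++ [(0, true), (0, false)]) ++
    [[(m + 1, false)] ++ sw w ++ [(0, true)] ++ sw (iw w) ++ [(0, false)]]

/-! ### finite lists of simplices -/

/-- The geometric realization of the simplicial complex whose simplices are the nonempty subsets
of the members of `L`: a subspace of the space of real sequences. -/
def Real (L : List (List ℕ)) : Type :=
  {x : ℕ → ℝ // ∃ s ∈ L, (∀ i, 0 ≤ x i) ∧ (∀ i, i ∉ s → x i = 0) ∧ ∑ i ∈ s.toFinset, x i = 1}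

instance (L : List (List ℕ)) : TopologicalSpace (Real L) :=
  inferInstanceAs (TopologicalSpace {x : ℕ → ℝ //
    ∃ s ∈ L, (∀ i, 0 ≤ x i) ∧ (∀ i, i ∉ s → x i = 0) ∧ ∑ i ∈ s.toFinset, x i = 1})

/-- Numbers for the vertices. -/
def code : (ℕ × ℕ) ⊕ (ℕ × ℕ) → ℕ
  | Sum.inl x => 2 * Nat.pair x.1 x.2
  | Sum.inr x => 2 * Nat.pair x.1 x.2 + 1

end Pool.Agent.TH716.C3
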