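import Pool.Agent.TH716.C3.Taut
import Pool.Agent.Helper270.WPB

/-!
# Contractibility of complexes of dimension at most three: assembly
-/

set_option autoImplicit false

open unitInterval Topology

namespace Pool.Agent.TH716.C3

open Pool.Agent.Helper281.Sc

/-! ### from cocycles to null-homotopies -/

theorem P1c (hP : S_P1) {K : Set (Finset ℕ)} (hK : IsCx K) (hfin : K.Finite)
    (hd : ∀ s ∈ K, s.card ≤ 3)
    (hH : ∀ (M : Type) [AddCommGroup M] (d : ℕ → ℕ → ℕ → M), ∃ m : ℕ → ℕ → M, ∀ a b c, a < b →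
      b < c → ({a, b, c} : Finset ℕ) ∈ K → m a b + m b c - m a c = d a b c)
    {Y : Type} [TopologicalSpace Y] (f : Rlz K → Y) (hf : Continuous f) (y0 : Y)
    (p : ∀ (v : ℕ) (hv : ({v} : Finset ℕ) ∈ K), Path (f (vt v hv)) y0)
    (b : ℕ → FundamentalGroup Y y0)
    (hb : ∀ u v, ({u, v} : Finset ℕ) ∈ K → tC hK f hf y0 p u v = (b u)⁻¹ * b v) :
    ∃ F : Rlz K × I → Y, Continuous F ∧ (∀ x, F (x, 0) = f x) ∧ ∀ x, F (x, 1) = y0 := by
  have hβ : ∀ v, ∃ β : Path y0 y0, Path.Homotopic.Quotient.mk β = b v := fun v =>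
    Path.Homotopic.Quotient.mk_surjective (b v)
  choose β hβ using hβ
  refine hP K hK hfin hd hH Y f hf y0 (fun v hv => (p v hv).trans (β v)) ?_
  intro u v h
  have h' : ({v, u} : Finset ℕ) ∈ K := by rwa [Finset.pair_comm]
  have e := hb v u h'
  unfold tC at e
  rw [dif_pos h] at e
  have e1 : Path.Homotopic.Quotient.mk (((p u (left_mem hK h)).symm.trans
      ((ed hK u v h).map hf)).trans (p v (right_mem hK h))) =
      (Path.Homotopic.Quotient.mk (β u)).trans (Path.Homotopic.Quotient.mk (β v)).symm := by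
    rw [hβ, hβ]
    exact e
  rw [← Path.Homotopic.Quotient.eq]
  simp only [Path.Homotopic.Quotient.mk_trans, Path.Homotopic.Quotient.mk_symm,
    Path.trans_symm, Path.Homotopic.Quotient.trans_assoc] at e1 ⊢
  rw [← Path.Homotopic.Quotient.trans_assoc (Path.Homotopic.Quotient.mk ((ed hK u v h).map hf)),
    ← Path.Homotopic.Quotient.trans_assoc (Path.Homotopic.Quotient.symm
      (Path.Homotopic.Quotient.mk (p u _))), e1, Path.Homotopic.Quotient.trans_assoc,
    Path.Homotopic.Quotient.symm_trans, Path.Homotopic.Quotient.trans_refl,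
    Path.Homotopic.Quotient.symm_trans]
  rfl

theorem ab_aux {G : Type} [Group G] (hc : ∀ a b : G, a * b = b * a) (x y : G)
    (h : x⁻¹ * (y * (x * (y⁻¹ * (y⁻¹ * 1)))) = 1) : y = 1 := by
  have e : x⁻¹ * (y * (x * (y⁻¹ * (y⁻¹ * 1)))) = y⁻¹ := by
    rw [hc x, mul_one]
    have : y * (y⁻¹ * y⁻¹ * x) = x * y⁻¹ := by rw [hc x]; group
    rw [this]
    group
  rw [e] at h
  exact inv_eq_one.1 h

/-- Maps from `Kp N g` to path spaces are null-homotopic. -/
theorem pathSpace (hP : S_P1) (hcx : S_Kcx) (hhol : S_Khol) (htr : S_Ktriv) (hH2 : S_KH2)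
    (hcomm : S_comm) (htaut : S_taut) (N : ℕ) (g : ℕ → ℕ) (hg : ∀ h < N, g h < N)
    (Y : Type) [TopologicalSpace Y] (y y' : Y) (Φ : Rlz (Kp N g) → Path y y')
    (hΦ : Continuous Φ) : ∃ (ω : Path y y') (H : Rlz (Kp N g) × I → Path y y'),
    Continuous H ∧ (∀ x, H (x, 0) = Φ x) ∧ ∀ x, H (x, 1) = ω := by
  obtain ⟨hK, hfin, hcard, hlt, hconn⟩ := hcx N g hg
  have h0 : ({0} : Finset ℕ) ∈ Kp N g := Or.inl ⟨by simp, Or.inl rfl⟩
  set ω : Path y y' := Φ (vt 0 h0) with hω
  have hj : ∀ v (hv : ({v} : Finset ℕ) ∈ Kp N g), Joined (Φ (vt v hv)) ω := by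
    intro v hv
    refine Relation.ReflTransGen.head_induction_on
      (motive := fun v _ => ∀ hv : ({v} : Finset ℕ) ∈ Kp N g, Joined (Φ (vt v hv)) ω)
      (hconn v hv) ?_ ?_ hv
    · intro _
      exact Joined.refl _
    · intro a c hac _ ih ha
      have hc : ({c} : Finset ℕ) ∈ Kp N g := right_mem hK hac
      exact Joined.trans ⟨(ed hK a c hac).map hΦ⟩ (ih hc)
  let p : ∀ v (hv : ({v} : Finset ℕ) ∈ Kp N g), Path (Φ (vt v hv)) ω := fun v hv => (hj v hv).somePath
  have hC := htaut ℕ (Kp N g) hK (Path y y') Φ hΦ ω p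
  have hh := hhol N g hg _ _ hC
  have h1 : ∀ h < N, hl (tC hK Φ hΦ ω p) h = 1 := by
    intro h hh'
    have := hh h hh'
    have hc := hcomm Y y y' ω
    set γ := hl (tC hK Φ hΦ ω p)
    exact ab_aux hc _ _ this
  obtain ⟨b, hb⟩ := htr N g hg _ _ hC h1
  obtain ⟨H, hH, hH0, hH1⟩ := P1c hP hK hfin hcard (fun M _ d => hH2 N g hg M d) Φ hΦ ω p b
    (fun u v h => hb _ h u (by simp) v (by simp))
  exact ⟨ω, H, hH, hH0, hH1⟩

theorem cast_aux {X : Type} [TopologicalSpace X] {a b a' b' y : X} (ha : a' = a) (hb : b' = b)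
    (pa : Path a y) (pb : Path b y) (e : Path b a) (e' : Path b' a') (he : ∀ t, e' t = e t) :
    ((pb.cast hb rfl).symm.trans e').trans (pa.cast ha rfl) = (pb.symm.trans e).trans pa := by
  subst ha hb
  have : e' = e := Path.ext (funext he)
  subst this
  rfl

/-- The yes-case. -/
theorem yes_case (hP : S_P1) (hcx : S_Kcx) (hhol : S_Khol) (htr : S_Ktriv) (hH2 : S_KH2)
    (hcomm : S_comm) (htaut : S_taut) (hZ : S_Z) (hret : S_ret) (hLcx : S_Lcx)
    (hLcomm : S_Lcomm) (N : ℕ) (g : ℕ → ℕ) (hg : ∀ h < N, g h < N)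
    (rs : List (List (ℕ × Bool))) (hrs : ∀ r ∈ rs, r ≠ [] ∧ ∀ x ∈ r, x.1 < N)
    (halg : ∀ (G : Type) [Group G] (γ : ℕ → G), (∀ h < N, ev γ (rl g h) = 1) →
      (∀ r ∈ rs, ∀ h < N, Commute (ev γ r) (γ h)) → ∀ h < N, γ h = 1) :
    Ctr (Lc (Kp N g) rs) := by
  obtain ⟨hK, hfin, hcard, hlt, hconn⟩ := hcx N g hg
  obtain ⟨hL, hLfin, hLcard, hLsub, hLconn⟩ := hLcx N g hg rs hrs
  have hTh : Th N ⊆ Kp N g := fun s hs => Or.inl hs
  have h0 : ({0} : Finset ℕ) ∈ Kp N g := Or.inl ⟨by simp, Or.inl rfl⟩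
  -- the inclusion of simplices
  have hin : ∀ s ∈ Kp N g, (s.image fun v => (v, 0)).image Sum.inl ∈ Lc (Kp N g) rs := by
    intro s hs
    have hne : s.Nonempty := by
      rw [Finset.nonempty_iff_ne_empty]
      rintro rfl
      exact hK.1 hs
    refine Or.inl ⟨s.image fun v => (v, 0), ⟨?_, ?_, ?_⟩, rfl⟩
    · rw [Finset.image_image]
      have : (Prod.fst ∘ fun v : ℕ => (v, 0)) = id := rfl
      rwa [this, Finset.image_id]
    · rw [Finset.image_image]
      refine ⟨hne.image _, Or.inl ?_⟩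
      ext v
      simp only [Finset.mem_image, Function.comp_apply, Finset.mem_singleton]
      constructor
      · rintro ⟨_, _, rfl⟩; rfl
      · rintro rfl
        obtain ⟨w, hw⟩ := hne
        exact ⟨w, hw, rfl⟩
    · intro x hx y hy
      simp only [Finset.mem_image] at hx hy
      obtain ⟨u, _, rfl⟩ := hx
      obtain ⟨v, _, rfl⟩ := hy
      rcases le_total u v with h | h
      · exact Or.inl (Prod.mk_le_mk.2 ⟨h, le_rfl⟩)
      · exact Or.inr (Prod.mk_le_mk.2 ⟨h, le_rfl⟩)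
  have hpair : ∀ a b : ℕ, ({a, b} : Finset ℕ) ∈ Kp N g →
      ({Sum.inl (a, 0), Sum.inl (b, 0)} : Finset ((ℕ × ℕ) ⊕ (ℕ × ℕ))) ∈ Lc (Kp N g) rs := by
    intro a b h
    have := hin _ h
    simpa [Finset.image_insert] using this
  have h00 : ({Sum.inl (0, 0)} : Finset ((ℕ × ℕ) ⊕ (ℕ × ℕ))) ∈ Lc (Kp N g) rs := by
    have := hin _ h0
    simpa using this
  set y0 : Rlz (Lc (Kp N g) rs) := vt (Sum.inl (0, 0)) h00 with hy0
  -- paths from the vertices to the base point
  have hj : ∀ v (hv : ({v} : Finset ((ℕ × ℕ) ⊕ (ℕ × ℕ))) ∈ Lc (Kp N g) rs),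
      Joined (vt v hv) y0 := by
    intro v hv
    refine Relation.ReflTransGen.head_induction_on
      (motive := fun v _ => ∀ hv : ({v} : Finset ((ℕ × ℕ) ⊕ (ℕ × ℕ))) ∈ Lc (Kp N g) rs,
        Joined (vt v hv) y0)
      (hLconn v hv) ?_ ?_ hv
    · intro _
      exact Joined.refl _
    · intro a c hac _ ih ha
      have hc := right_mem hL hac
      exact Joined.trans ⟨ed hL a c hac⟩ (ih hc)
  let p : ∀ v (hv : ({v} : Finset ((ℕ × ℕ) ⊕ (ℕ × ℕ))) ∈ Lc (Kp N g) rs),
    Path (id (vt v hv)) y0 := fun v hv => (hj v hv).somePath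
  set C := tC hL (id : Rlz (Lc (Kp N g) rs) → _) continuous_id y0 p with hC
  have hCoc : Coc (Lc (Kp N g) rs) C := htaut _ _ hL _ _ _ _ _
  set C0 : ℕ → ℕ → FundamentalGroup (Rlz (Lc (Kp N g) rs)) y0 :=
    fun u v => C (Sum.inl (u, 0)) (Sum.inl (v, 0)) with hC0
  have hCoc0 : Coc (Kp N g) C0 := by
    intro s hs u hu v hv w hw
    refine hCoc _ (hin s hs) _ ?_ _ ?_ _ ?_ <;> simp [hu, hv, hw]
  have hγ : ∀ h < N, hl C0 h = 1 :=
    halg _ (hl C0) (hhol N g hg _ _ hCoc0) (hLcomm N g hg rs hrs _ _ hCoc)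
  obtain ⟨b, hb⟩ := htr N g hg _ _ hCoc0 hγ
  -- the inclusion at level zero
  have hic : Continuous (i0 (Kp N g) rs) := by
    rw [Rlz.continuous_iff]
    intro s hs
    have h1 : ∀ x : Simp s, (fun w : (ℕ × ℕ) ⊕ (ℕ × ℕ) => match w with
        | Sum.inl (v, a) => if a = 0 then x.1 v else 0
        | Sum.inr _ => (0 : ℝ)) ∈ Simp ((s.image fun v => (v, 0)).image Sum.inl :
          Finset ((ℕ × ℕ) ⊕ (ℕ × ℕ))) := by
      intro x
      refine ⟨?_, ?_, ?_⟩
      · rintro (⟨v, a⟩ | w)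
        · dsimp only
          split_ifs
          · exact x.2.1 v
          · exact le_rfl
        · exact le_rfl
      · rintro (⟨v, a⟩ | w) hw
        · dsimp only
          split_ifs with h
          · subst h
            apply x.2.2.1
            intro hv
            exact hw (by simpa using hv)
          · rfl
        · rfl
      · rw [Finset.sum_image (by simp), Finset.sum_image (by simp)]
        simpa using x.2.2.2
    have h2 : Continuous fun x : Simp s => (⟨_, h1 x⟩ : Simp ((s.image fun v => (v, 0)).image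
        Sum.inl : Finset ((ℕ × ℕ) ⊕ (ℕ × ℕ)))) := by
      refine Continuous.subtype_mk (continuous_pi ?_) _
      rintro (⟨v, a⟩ | w)
      · dsimp only
        split_ifs
        · exact (continuous_apply v).comp continuous_subtype_val
        · exact continuous_const
      · exact continuous_const
    exact (Rlz.continuous_inc _ (hin s hs)).comp h2
  have hvt : ∀ v (hv : ({v} : Finset ℕ) ∈ Kp N g), ∃ hv' : ({Sum.inl (v, 0)} :
      Finset ((ℕ × ℕ) ⊕ (ℕ × ℕ))) ∈ Lc (Kp N g) rs,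
      i0 (Kp N g) rs (vt v hv) = vt (Sum.inl (v, 0)) hv' := by
    intro v hv
    refine ⟨by have := hin _ hv; simpa using this, ?_⟩
    apply Subtype.ext
    funext w
    rcases w with ⟨u, a⟩ | w
    · simp only [i0, vt]
      by_cases h1 : a = 0
      · subst h1
        by_cases h2 : u = v
        · simp [h2]
        · simp [h2]
      · simp [h1]
    · simp [i0, vt]
  choose hv' hvt using hvt
  let q : ∀ v (hv : ({v} : Finset ℕ) ∈ Kp N g), Path (i0 (Kp N g) rs (vt v hv)) y0 :=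
    fun v hv => (p (Sum.inl (v, 0)) (hv' v hv)).cast (hvt v hv) rfl
  have hq : ∀ u v, ({u, v} : Finset ℕ) ∈ Kp N g →
      tC hK (i0 (Kp N g) rs) hic y0 q u v = (b u)⁻¹ * b v := by
    intro u v h
    have h' : ({v, u} : Finset ℕ) ∈ Kp N g := by rwa [Finset.pair_comm]
    rw [← hb _ h u (by simp) v (by simp)]
    change _ = C (Sum.inl (u, 0)) (Sum.inl (v, 0))
    rw [hC]
    unfold tC
    rw [dif_pos h', dif_pos (hpair v u h')]
    congr 1
    congr 1
    apply cast_aux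
    intro t
    apply Subtype.ext
    funext w
    rcases w with ⟨x, a⟩ | w
    · change (if a = 0 then ((ed hK v u h') t).1 x else 0) =
        (1 - (t : ℝ)) * (if (Sum.inl (x, a) : (ℕ × ℕ) ⊕ (ℕ × ℕ)) = Sum.inl (v, 0) then 1 else 0) +
        (t : ℝ) * (if (Sum.inl (x, a) : (ℕ × ℕ) ⊕ (ℕ × ℕ)) = Sum.inl (u, 0) then 1 else 0)
      by_cases h1 : a = 0
      · subst h1
        rw [if_pos rfl]
        change (1 - (t : ℝ)) * (if x = v then 1 else 0) + (t : ℝ) * (if x = u then 1 else 0) = _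
        simp
      · simp [h1]
    · change (0 : ℝ) =
        (1 - (t : ℝ)) * (if (Sum.inr w : (ℕ × ℕ) ⊕ (ℕ × ℕ)) = Sum.inl (v, 0) then 1 else 0) +
        (t : ℝ) * (if (Sum.inr w : (ℕ × ℕ) ⊕ (ℕ × ℕ)) = Sum.inl (u, 0) then 1 else 0)
      simp
  obtain ⟨F, hF, hF0, hF1⟩ := P1c hP hK hfin hcard (fun M _ d => hH2 N g hg M d)
    (i0 (Kp N g) rs) hic y0 q b hq
  obtain ⟨r, hr, hr'⟩ := hret (Kp N g) hK hfin (cN N) hlt N hTh rs hrs hLsub y0 F hF hF0 hF1
    (fun Φ hΦ => pathSpace hP hcx hhol htr hH2 hcomm htaut N g hg _ _ _ Φ hΦ)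
  obtain ⟨z0, H, hH, hH0, hH1⟩ := hZ (Kp N g) hK (cN N) hlt N hTh rs hrs
  refine ⟨r z0, fun x => r (H (Rlz.sub hLsub x.1, x.2)), ?_, ?_, ?_⟩
  · exact hr.comp (hH.comp (((Rlz.continuous_sub hLsub).comp continuous_fst).prodMk
      continuous_snd))
  · intro x
    change r (H (Rlz.sub hLsub x, 0)) = x
    rw [hH0, hr']
  · intro x
    change r (H (Rlz.sub hLsub x, 1)) = r z0
    rw [hH1]

theorem ev_congr {G : Type} [Group G] (γ δ : ℕ → G) (N : ℕ) (h : ∀ x < N, γ x = δ x)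
    (r : List (ℕ × Bool)) (hr : ∀ x ∈ r, x.1 < N) : ev γ r = ev δ r := by
  unfold ev
  congr 1
  apply List.map_congr_left
  intro x hx
  rw [h _ (hr x hx)]

/-- The no-case. -/
theorem no_case (htriv : S_triv) (hext : S_Kext) (hLcx : S_Lcx) (hLext : S_Lext)
    (N : ℕ) (g : ℕ → ℕ) (hg : ∀ h < N, g h < N)
    (rs : List (List (ℕ × Bool))) (hrs : ∀ r ∈ rs, r ≠ [] ∧ ∀ x ∈ r, x.1 < N)
    (G : Type) [Group G] (γ : ℕ → G) (hγ : ∀ h < N, ev γ (rl g h) = 1)
    (hγr : ∀ r ∈ rs, ev γ r = 1) (hctr : Ctr (Lc (Kp N g) rs)) : ∀ h < N, γ h = 1 := by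
  obtain ⟨C, hC, hCγ⟩ := hext N g hg G γ hγ
  obtain ⟨C', hC', hCC⟩ := hLext N g hg rs hrs G C hC (fun r hr => by
    rw [ev_congr (hl C) γ N hCγ r (hrs r hr).2, hγr r hr])
  obtain ⟨hL, hLfin, -, -, -⟩ := hLcx N g hg rs hrs
  obtain ⟨b, hb⟩ := htriv _ G _ hL hLfin hctr C' hC'
  intro h hh
  rw [← hCγ h hh]
  -- edges of the circle
  have hed : ∀ u v : ℕ, ({u, v} : Finset ℕ) ∈ Kp N g → C u v = (b (Sum.inl (u, 0)))⁻¹ *
      b (Sum.inl (v, 0)) := by
    intro u v huv
    rw [← hCC]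
    refine hb (({u, v} : Finset ℕ).image (fun x => Sum.inl (x, 0))) (Or.inl
      ⟨({u, v} : Finset ℕ).image (fun x => (x, 0)), ⟨?_, ?_, ?_⟩, ?_⟩) _ (by simp) _ (by simp)
    · rw [Finset.image_image]
      have : (Prod.fst ∘ fun v : ℕ => (v, 0)) = id := rfl
      rwa [this, Finset.image_id]
    · refine ⟨by simp, Or.inl ?_⟩
      ext x
      simp
    · intro x hx y hy
      simp only [Finset.mem_image] at hx hy
      obtain ⟨u, _, rfl⟩ := hx
      obtain ⟨v, _, rfl⟩ := hy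
      rcases le_total u v with h | h
      · exact Or.inl (Prod.mk_le_mk.2 ⟨h, le_rfl⟩)
      · exact Or.inr (Prod.mk_le_mk.2 ⟨h, le_rfl⟩)
    · rw [Finset.image_image]
      rfl
  unfold hl
  rw [hed 0 (2 * h + 1) (Or.inl ⟨by simp, Or.inr ⟨h, hh, Or.inl (by simp)⟩⟩),
    hed (2 * h + 1) (2 * h + 2) (Or.inl ⟨by simp, Or.inr ⟨h, hh, Or.inr (Or.inl (by simp))⟩⟩),
    hed (2 * h + 2) 0 (Or.inl ⟨by simp, Or.inr ⟨h, hh, Or.inr (Or.inr (by
      intro x hx
      simp only [Finset.mem_insert, Finset.mem_singleton] at hx ⊢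
      tauto))⟩⟩)]
  group

theorem gN_lt (m : ℕ) : ∀ h < 2 * m + 6, gN m h < 2 * m + 6 := by
  intro h hh
  unfold gN
  split_ifs <;> omega

theorem sw_lt {m : ℕ} (l : List (Fin m × Bool)) : ∀ x ∈ sw l, x.1 < m + 1 := by
  intro x hx
  unfold sw at hx
  rw [List.mem_flatMap] at hx
  obtain ⟨y, -, hy⟩ := hx
  have := y.1.2
  split_ifs at hy <;> simp at hy <;> rcases hy with rfl | rfl <;> simp

theorem rsn_lt {m : ℕ} (R : List (List (Fin m × Bool))) (w : List (Fin m × Bool)) :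
    ∀ r ∈ rsn R w, r ≠ [] ∧ ∀ x ∈ r, x.1 < 2 * m + 6 := by
  intro r hr
  unfold rsn at hr
  rw [List.mem_append, List.mem_map, List.mem_singleton] at hr
  rcases hr with ⟨r', _, rfl⟩ | rfl
  · refine ⟨by simp, ?_⟩
    intro x hx
    rw [List.mem_append] at hx
    rcases hx with hx | hx
    · have := sw_lt _ x hx
      omega
    · simp at hx
      rcases hx with rfl | rfl <;> simp
  · refine ⟨by simp, ?_⟩
    intro x hx
    simp only [List.mem_append, List.mem_singleton] at hx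
    rcases hx with (((rfl | hx) | rfl) | hx) | rfl
    · simp; omega
    · have := sw_lt _ x hx
      omega
    · simp
    · have := sw_lt _ x hx
      omega
    · simp

theorem primrec_sw {m : ℕ} : Primrec (sw (m := m)) := by
  unfold sw
  refine Primrec.list_flatMap Primrec.id ?_
  have h1 : Primrec fun p : List (Fin m × Bool) × (Fin m × Bool) => p.2.1.1 + 1 :=
    Primrec.succ.comp (Primrec.fin_val.comp (Primrec.fst.comp Primrec.snd))
  have h2 : ∀ (b c : Bool), Primrec fun p : List (Fin m × Bool) × (Fin m × Bool) =>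
      [(p.2.1.1 + 1, b), (0, c)] := fun b c =>
    Primrec.list_cons.comp (Primrec.pair h1 (Primrec.const _)) (Primrec.const _)
  have h3 : ∀ (b c : Bool), Primrec fun p : List (Fin m × Bool) × (Fin m × Bool) =>
      [(0, b), (p.2.1.1 + 1, c)] := fun b c =>
    Primrec.list_cons.comp (Primrec.const _) (Primrec.list_cons.comp
      (Primrec.pair h1 (Primrec.const _)) (Primrec.const _))
  exact Primrec.ite (PrimrecPred.comp (p := fun b : Bool => b = true) (Primrec.eq.comp Primrec.id (Primrec.const true)) (Primrec.snd.comp Primrec.snd)) (h2 _ _) (h3 _ _)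

theorem primrec_iw {m : ℕ} : Primrec (iw (m := m)) := by
  unfold iw
  refine Primrec.list_reverse.comp (Primrec.list_map Primrec.id ?_)
  exact Primrec.pair (Primrec.fst.comp Primrec.snd) (Primrec.not.comp (Primrec.snd.comp Primrec.snd))

theorem primrec_rsn {m : ℕ} (R : List (List (Fin m × Bool))) : Primrec (rsn R) := by
  unfold rsn
  have hs := primrec_sw (m := m)
  have hi := primrec_iw (m := m)
  refine Primrec.list_append.comp (Primrec.const _) (Primrec.list_cons.comp ?_ (Primrec.const _))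
  exact Primrec.list_append.comp (Primrec.list_append.comp (Primrec.list_append.comp
    (Primrec.list_append.comp (Primrec.const _) hs) (Primrec.const _)) (hs.comp hi))
    (Primrec.const _)

/-- Contractibility of finite simplicial complexes of dimension at most three is undecidable. -/
theorem main (hP : S_P1) (hcx : S_Kcx) (hhol : S_Khol) (htr : S_Ktriv) (hH2 : S_KH2)
    (hcomm : S_comm) (hZ : S_Z) (hret : S_ret) (hLcx : S_Lcx)
    (hLcomm : S_Lcomm) (htriv : S_triv) (hext : S_Kext) (hLext : S_Lext) (hyes : S_yes)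
    (hno : S_no) (hcomp : S_comp) (hreal : S_real) :
    ¬ ∃ f : List (List ℕ) → Bool, Computable f ∧ ∀ L : List (List ℕ),
      (∀ s ∈ L, s.toFinset.card ≤ 4) → (f L = true ↔ ContractibleSpace (Real L)) := by
  classical
  obtain ⟨m, R, W, hW, hund⟩ := Pool.Agent.Helper270.WP.word_problem
  rintro ⟨f, hf, hcon⟩
  apply hund
  set Rl : List (List (Fin m × Bool)) := R.toList.map FreeGroup.toWord with hRl
  have hR : {x | ∃ r ∈ Rl, x = FreeGroup.mk r} = (R : Set (FreeGroup (Fin m))) := by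
    ext x
    constructor
    · rintro ⟨r, hr, rfl⟩
      rw [hRl, List.mem_map] at hr
      obtain ⟨y, hy, rfl⟩ := hr
      rw [FreeGroup.mk_toWord]
      exact Finset.mem_toList.1 hy
    · intro hx
      exact ⟨x.toWord, List.mem_map.2 ⟨x, Finset.mem_toList.2 hx, rfl⟩, FreeGroup.mk_toWord.symm⟩
  obtain ⟨F, hF, hF'⟩ := hcomp (2 * m + 6) (gN m) (gN_lt m)
  have hρ : Computable fun n => F (rsn Rl (W n)) := hF.comp ((primrec_rsn Rl).to_comp.comp hW)
  have key : ∀ n, (FreeGroup.mk (W n) ∈ Subgroup.normalClosure (R : Set (FreeGroup (Fin m)))) ↔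
      f (F (rsn Rl (W n))) = true := by
    intro n
    have hrs := rsn_lt Rl (W n)
    obtain ⟨hL, hLfin, -, -, -⟩ := hLcx (2 * m + 6) (gN m) (gN_lt m) _ hrs
    rw [hcon _ (hF' _).1, hreal _ _ hL hLfin (hF' _).2]
    constructor
    · intro h
      refine yes_case hP hcx hhol htr hH2 hcomm taut hZ hret hLcx hLcomm _ _ (gN_lt m) _ hrs ?_
      exact hyes m Rl (W n) (by rw [hR]; exact h)
    · intro h
      by_contra hn
      obtain ⟨G, _, γ, h1, h2, h3⟩ := hno m Rl (W n) (by rw [hR]; exact hn)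
      exact h3 (no_case htriv hext hLcx hLext _ _ (gN_lt m) _ hrs G γ h1 h2 h 0 (by omega))
  exact ComputablePred.computable_iff.2 ⟨_, hf.comp hρ, funext fun n => propext (key n)⟩

end Pool.Agent.TH716.C3
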