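import Pool.Agent.TH716.C3.Defs
import Pool.Agent.Helper281.Sc.Tl

/-!
# Contractibility of complexes of dimension at most three: the parts

Each `S_...` is a proposition to be proved in its own file.
-/

set_option autoImplicit false

open unitInterval Topology

namespace Pool.Agent.TH716.C3

open Pool.Agent.Helper281.Sc

/-! ### topology -/

/-- Cocycles on contractible complexes are coboundaries. -/
def S_triv : Prop := ∀ (V G : Type) [DecidableEq V] [Group G] (L : Set (Finset V)), IsCx L →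
  L.Finite → Ctr L → ∀ C : V → V → G, Coc L C →
  ∃ b : V → G, ∀ s ∈ L, ∀ u ∈ s, ∀ v ∈ s, C u v = (b u)⁻¹ * b v

/-- The tautological cocycle is a cocycle. -/
def S_taut : Prop := ∀ (V : Type) [DecidableEq V] (K : Set (Finset V)) (hK : IsCx K) (Y : Type)
  [TopologicalSpace Y] (f : Rlz K → Y) (hf : Continuous f) (y0 : Y)
  (p : ∀ (v : V) (hv : ({v} : Finset V) ∈ K), Path (f (vt v hv)) y0), Coc K (tC hK f hf y0 p)

/-- A map from a two-dimensional complex without second cohomology which is trivial on edges is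
null-homotopic. -/
def S_P1 : Prop := ∀ (K : Set (Finset ℕ)) (hK : IsCx K), K.Finite → (∀ s ∈ K, s.card ≤ 3) →
  (∀ (M : Type) [AddCommGroup M] (d : ℕ → ℕ → ℕ → M), ∃ m : ℕ → ℕ → M, ∀ a b c, a < b → b < c →
    ({a, b, c} : Finset ℕ) ∈ K → m a b + m b c - m a c = d a b c) →
  ∀ (Y : Type) [TopologicalSpace Y] (f : Rlz K → Y) (hf : Continuous f) (y0 : Y)
  (p : ∀ (v : ℕ) (hv : ({v} : Finset ℕ) ∈ K), Path (f (vt v hv)) y0),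
  (∀ (a b : ℕ) (h : ({a, b} : Finset ℕ) ∈ K), (((p a (left_mem hK h)).symm.trans
    ((ed hK a b h).map hf)).trans (p b (right_mem hK h))).Homotopic (Path.refl y0)) →
  ∃ F : Rlz K × I → Y, Continuous F ∧ (∀ x, F (x, 0) = f x) ∧ ∀ x, F (x, 1) = y0

/-- First part of `S_P1`: the map can be deformed to one which is constant on the 1-skeleton. -/
def S_P1a : Prop := ∀ (K : Set (Finset ℕ)) (hK : IsCx K), K.Finite → (∀ s ∈ K, s.card ≤ 3) →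
  ∀ (Y : Type) [TopologicalSpace Y] (f : Rlz K → Y) (hf : Continuous f) (y0 : Y)
  (p : ∀ (v : ℕ) (hv : ({v} : Finset ℕ) ∈ K), Path (f (vt v hv)) y0),
  (∀ (a b : ℕ) (h : ({a, b} : Finset ℕ) ∈ K), (((p a (left_mem hK h)).symm.trans
    ((ed hK a b h).map hf)).trans (p b (right_mem hK h))).Homotopic (Path.refl y0)) →
  ∃ F : Rlz K × I → Y, Continuous F ∧ (∀ x, F (x, 0) = f x) ∧
    ∀ (s : Finset ℕ) (hs : s ∈ K), s.card ≤ 2 → ∀ x : Simp s, F (Rlz.inc s hs x, 1) = y0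

/-- Second part of `S_P1`: a map which is constant on the 1-skeleton is null-homotopic. -/
def S_P1b : Prop := ∀ (K : Set (Finset ℕ)), IsCx K → K.Finite → (∀ s ∈ K, s.card ≤ 3) →
  (∀ (M : Type) [AddCommGroup M] (d : ℕ → ℕ → ℕ → M), ∃ m : ℕ → ℕ → M, ∀ a b c, a < b → b < c →
    ({a, b, c} : Finset ℕ) ∈ K → m a b + m b c - m a c = d a b c) →
  ∀ (Y : Type) [TopologicalSpace Y] (f : Rlz K → Y), Continuous f → ∀ y0 : Y,
  (∀ (s : Finset ℕ) (hs : s ∈ K), s.card ≤ 2 → ∀ x : Simp s, f (Rlz.inc s hs x) = y0) →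
  ∃ F : Rlz K × I → Y, Continuous F ∧ (∀ x, F (x, 0) = f x) ∧ ∀ x, F (x, 1) = y0

/-- Fundamental groups of path spaces are commutative. -/
def S_comm : Prop := ∀ (Y : Type) [TopologicalSpace Y] (y0 y1 : Y) (ω : Path y0 y1)
  (a b : FundamentalGroup (Path y0 y1) ω), a * b = b * a

/-- The retraction of `Lc (Cn K c) rs` onto `Lc K rs`. -/
def S_ret : Prop := ∀ (K : Set (Finset ℕ)), IsCx K → K.Finite → ∀ c : ℕ, (∀ s ∈ K, ∀ v ∈ s, v < c) →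
  ∀ N : ℕ, Th N ⊆ K → ∀ rs : List (List (ℕ × Bool)), (∀ r ∈ rs, r ≠ [] ∧ ∀ x ∈ r, x.1 < N) →
  ∀ (hL : Lc K rs ⊆ Lc (Cn K c) rs)
  (y : Rlz (Lc K rs)) (F : Rlz K × I → Rlz (Lc K rs)), Continuous F → (∀ x, F (x, 0) = i0 K rs x) →
  (∀ x, F (x, 1) = y) →
  (∀ Φ : Rlz K → Path y y, Continuous Φ → ∃ (ω : Path y y) (H : Rlz K × I → Path y y),
    Continuous H ∧ (∀ x, H (x, 0) = Φ x) ∧ ∀ x, H (x, 1) = ω) →
  ∃ r : Rlz (Lc (Cn K c) rs) → Rlz (Lc K rs), Continuous r ∧ ∀ x, r (Rlz.sub hL x) = x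

/-- The coned-off complex is contractible. -/
def S_Z : Prop := ∀ (K : Set (Finset ℕ)), IsCx K → ∀ c : ℕ, (∀ s ∈ K, ∀ v ∈ s, v < c) →
  ∀ N : ℕ, Th N ⊆ K → ∀ rs : List (List (ℕ × Bool)), (∀ r ∈ rs, r ≠ [] ∧ ∀ x ∈ r, x.1 < N) →
  Ctr (Lc (Cn K c) rs)

/-! ### combinatorics of `Kp N g` -/

/-- elementary properties of `Kp N g` -/
def S_Kcx : Prop := ∀ (N : ℕ) (g : ℕ → ℕ), (∀ h < N, g h < N) →
  IsCx (Kp N g) ∧ (Kp N g).Finite ∧ (∀ s ∈ Kp N g, s.card ≤ 3) ∧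
  (∀ s ∈ Kp N g, ∀ v ∈ s, v < cN N) ∧
  ∀ v, ({v} : Finset ℕ) ∈ Kp N g →
    Relation.ReflTransGen (fun a b => ({a, b} : Finset ℕ) ∈ Kp N g) v 0

/-- The holonomies satisfy the relations. -/
def S_Khol : Prop := ∀ (N : ℕ) (g : ℕ → ℕ), (∀ h < N, g h < N) → ∀ (G : Type) [Group G]
  (C : ℕ → ℕ → G), Coc (Kp N g) C → ∀ h < N, ev (hl C) (rl g h) = 1

/-- Cocycles with trivial holonomies are coboundaries. -/
def S_Ktriv : Prop := ∀ (N : ℕ) (g : ℕ → ℕ), (∀ h < N, g h < N) → ∀ (G : Type) [Group G]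
  (C : ℕ → ℕ → G), Coc (Kp N g) C → (∀ h < N, hl C h = 1) →
  ∃ b : ℕ → G, ∀ s ∈ Kp N g, ∀ u ∈ s, ∀ v ∈ s, C u v = (b u)⁻¹ * b v

/-- Cocycles with prescribed holonomies. -/
def S_Kext : Prop := ∀ (N : ℕ) (g : ℕ → ℕ), (∀ h < N, g h < N) → ∀ (G : Type) [Group G]
  (γ : ℕ → G), (∀ h < N, ev γ (rl g h) = 1) →
  ∃ C : ℕ → ℕ → G, Coc (Kp N g) C ∧ ∀ h < N, hl C h = γ h

/-- There is no second cohomology. -/
def S_KH2 : Prop := ∀ (N : ℕ) (g : ℕ → ℕ), (∀ h < N, g h < N) → ∀ (M : Type) [AddCommGroup M]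
  (d : ℕ → ℕ → ℕ → M), ∃ m : ℕ → ℕ → M, ∀ a b c, a < b → b < c →
    ({a, b, c} : Finset ℕ) ∈ Kp N g → m a b + m b c - m a c = d a b c

/-! ### combinatorics of `Lc (Kp N g) rs` -/

/-- elementary properties of `Lc (Kp N g) rs` -/
def S_Lcx : Prop := ∀ (N : ℕ) (g : ℕ → ℕ), (∀ h < N, g h < N) → ∀ rs : List (List (ℕ × Bool)),
  (∀ r ∈ rs, r ≠ [] ∧ ∀ x ∈ r, x.1 < N) →
  IsCx (Lc (Kp N g) rs) ∧ (Lc (Kp N g) rs).Finite ∧ (∀ s ∈ Lc (Kp N g) rs, s.card ≤ 4) ∧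
  Lc (Kp N g) rs ⊆ Lc (Cn (Kp N g) (cN N)) rs ∧
  ∀ v, ({v} : Finset ((ℕ × ℕ) ⊕ (ℕ × ℕ))) ∈ Lc (Kp N g) rs →
    Relation.ReflTransGen (fun a b => ({a, b} : Finset ((ℕ × ℕ) ⊕ (ℕ × ℕ))) ∈ Lc (Kp N g) rs) v
      (Sum.inl (0, 0))

/-- The words `rs` become central. -/
def S_Lcomm : Prop := ∀ (N : ℕ) (g : ℕ → ℕ), (∀ h < N, g h < N) → ∀ rs : List (List (ℕ × Bool)),
  (∀ r ∈ rs, r ≠ [] ∧ ∀ x ∈ r, x.1 < N) → ∀ (G : Type) [Group G]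
  (C : (ℕ × ℕ) ⊕ (ℕ × ℕ) → (ℕ × ℕ) ⊕ (ℕ × ℕ) → G), Coc (Lc (Kp N g) rs) C →
  ∀ r ∈ rs, ∀ h < N, Commute (ev (hl fun u v => C (Sum.inl (u, 0)) (Sum.inl (v, 0))) r)
    (hl (fun u v => C (Sum.inl (u, 0)) (Sum.inl (v, 0))) h)

/-- Extension of cocycles which are trivial at the words `rs`. -/
def S_Lext : Prop := ∀ (N : ℕ) (g : ℕ → ℕ), (∀ h < N, g h < N) → ∀ rs : List (List (ℕ × Bool)),
  (∀ r ∈ rs, r ≠ [] ∧ ∀ x ∈ r, x.1 < N) → ∀ (G : Type) [Group G] (C : ℕ → ℕ → G),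
  Coc (Kp N g) C → (∀ r ∈ rs, ev (hl C) r = 1) →
  ∃ C' : (ℕ × ℕ) ⊕ (ℕ × ℕ) → (ℕ × ℕ) ⊕ (ℕ × ℕ) → G, Coc (Lc (Kp N g) rs) C' ∧
    ∀ u v, C' (Sum.inl (u, 0)) (Sum.inl (v, 0)) = C u v

/-! ### groups -/

/-- If `w` is trivial then everything is trivial. -/
def S_yes : Prop := ∀ (m : ℕ) (R : List (List (Fin m × Bool))) (w : List (Fin m × Bool)),
  FreeGroup.mk w ∈ Subgroup.normalClosure {x | ∃ r ∈ R, x = FreeGroup.mk r} →
  ∀ (G : Type) [Group G] (γ : ℕ → G), (∀ h < 2 * m + 6, ev γ (rl (gN m) h) = 1) →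
  (∀ r ∈ rsn R w, ∀ h < 2 * m + 6, Commute (ev γ r) (γ h)) → ∀ h < 2 * m + 6, γ h = 1

/-- If `w` is nontrivial then there is a nontrivial model. -/
def S_no : Prop := ∀ (m : ℕ) (R : List (List (Fin m × Bool))) (w : List (Fin m × Bool)),
  FreeGroup.mk w ∉ Subgroup.normalClosure {x | ∃ r ∈ R, x = FreeGroup.mk r} →
  ∃ (G : Type) (_ : Group G) (γ : ℕ → G), (∀ h < 2 * m + 6, ev γ (rl (gN m) h) = 1) ∧
    (∀ r ∈ rsn R w, ev γ r = 1) ∧ γ 0 ≠ 1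

/-! ### computability -/

/-- The complex is computable from the words. -/
def S_comp : Prop := ∀ (N : ℕ) (g : ℕ → ℕ), (∀ h < N, g h < N) →
  ∃ F : List (List (ℕ × Bool)) → List (List ℕ), Computable F ∧
  ∀ rs : List (List (ℕ × Bool)), (∀ s ∈ F rs, s.toFinset.card ≤ 4) ∧ ∀ t : Finset ℕ,
    (t.Nonempty ∧ ∃ s ∈ F rs, t ⊆ s.toFinset) ↔ ∃ s ∈ Lc (Kp N g) rs, t = s.image code

/-- Comparison of the two topologies. -/
def S_real : Prop := ∀ (L : List (List ℕ)) (K : Set (Finset ((ℕ × ℕ) ⊕ (ℕ × ℕ)))), IsCx K →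
  K.Finite → (∀ t : Finset ℕ, (t.Nonempty ∧ ∃ s ∈ L, t ⊆ s.toFinset) ↔
    ∃ s ∈ K, t = s.image code) → (ContractibleSpace (Real L) ↔ Ctr K)

end Pool.Agent.TH716.C3
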