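import Pool.Agent.TH716.C3.Stmts

/-!
# The tautological cocycle
-/

set_option autoImplicit false

open unitInterval Topology

namespace Pool.Agent.TH716.C3

open Pool.Agent.Helper281.Sc

variable {V : Type} {K : Set (Finset V)}

theorem continuous_val : Continuous fun x : Rlz K => x.1 := by
  rw [Rlz.continuous_iff]
  intro s hs
  exact continuous_subtype_val

theorem cvx {s : Finset V} {x y : V → ℝ} (hx : x ∈ Simp s) (hy : y ∈ Simp s) {t : ℝ}
    (h0 : 0 ≤ t) (h1 : t ≤ 1) : (fun v => (1 - t) * x v + t * y v) ∈ Simp s := by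
  refine ⟨fun v => ?_, fun v hv => ?_, ?_⟩
  · have := hx.1 v
    have := hy.1 v
    have : 0 ≤ 1 - t := by linarith
    dsimp only
    positivity
  · dsimp only
    rw [hx.2.1 v hv, hy.2.1 v hv]
    ring
  · rw [Finset.sum_add_distrib, ← Finset.mul_sum, ← Finset.mul_sum, hx.2.2, hy.2.2]
    ring

/-- Paths in the same closed simplex are homotopic. -/
theorem homotopic_of_simp {s : Finset V} (hs : s ∈ K) {x y : Rlz K} (γ δ : Path x y)
    (hγ : ∀ t, (γ t).1 ∈ Simp s) (hδ : ∀ t, (δ t).1 ∈ Simp s) : γ.Homotopic δ := by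
  have hc : Continuous fun p : I × I => Rlz.inc s hs
      ⟨fun v => (1 - (p.1 : ℝ)) * (γ p.2).1 v + (p.1 : ℝ) * (δ p.2).1 v,
        cvx (hγ p.2) (hδ p.2) p.1.2.1 p.1.2.2⟩ := by
    refine (Rlz.continuous_inc s hs).comp (Continuous.subtype_mk (continuous_pi fun v => ?_) _)
    have h1 : Continuous fun p : I × I => (γ p.2).1 v :=
      (continuous_apply v).comp (continuous_val.comp (γ.continuous.comp continuous_snd))
    have h2 : Continuous fun p : I × I => (δ p.2).1 v :=
      (continuous_apply v).comp (continuous_val.comp (δ.continuous.comp continuous_snd))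
    have h3 : Continuous fun p : I × I => (p.1 : ℝ) := continuous_subtype_val.comp continuous_fst
    exact ((continuous_const.sub h3).mul h1).add (h3.mul h2)
  refine ⟨⟨⟨⟨_, hc⟩, ?_, ?_⟩, ?_⟩⟩
  · intro t
    apply Subtype.ext
    funext v
    simp [Rlz.inc]
  · intro t
    apply Subtype.ext
    funext v
    simp [Rlz.inc]
  · intro t u hu
    apply Subtype.ext
    funext v
    rcases hu with rfl | rfl
    · change (1 - (t : ℝ)) * (γ 0).1 v + (t : ℝ) * (δ 0).1 v = (γ 0).1 v
      rw [γ.source, δ.source]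
      ring
    · change (1 - (t : ℝ)) * (γ 1).1 v + (t : ℝ) * (δ 1).1 v = (γ 1).1 v
      rw [γ.target, δ.target]
      ring

variable [DecidableEq V]

theorem ed_simp (hK : IsCx K) {a b : V} (h : ({a, b} : Finset V) ∈ K) {s : Finset V}
    (ha : a ∈ s) (hb : b ∈ s) (t : I) : (ed hK a b h t).1 ∈ Simp s :=
  simp_mono' (by
    intro x hx
    simp only [Finset.mem_insert, Finset.mem_singleton] at hx
    rcases hx with rfl | rfl
    · exact ha
    · exact hb) (ed_mem hK h t)
where
  simp_mono' {s t : Finset V} (h : s ⊆ t) {x : V → ℝ} (hx : x ∈ Simp s) : x ∈ Simp t := by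
    refine ⟨hx.1, fun v hv => hx.2.1 v fun h2 => hv (h h2), ?_⟩
    rw [← hx.2.2]
    symm
    apply Finset.sum_subset h
    intro v _ hv
    exact hx.2.1 v hv

theorem ed_trans (hK : IsCx K) {s : Finset V} (hs : s ∈ K) {a b c : V} (ha : a ∈ s) (hb : b ∈ s)
    (hc : c ∈ s) (h1 : ({a, b} : Finset V) ∈ K) (h2 : ({b, c} : Finset V) ∈ K)
    (h3 : ({a, c} : Finset V) ∈ K) :
    ((ed hK a b h1).trans (ed hK b c h2)).Homotopic (ed hK a c h3) := by
  apply homotopic_of_simp hs
  · intro t
    rw [Path.trans_apply]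
    split_ifs
    · exact ed_simp hK h1 ha hb _
    · exact ed_simp hK h2 hb hc _
  · intro t
    exact ed_simp hK h3 ha hc _

theorem pair_mem (hK : IsCx K) {s : Finset V} (hs : s ∈ K) {a b : V} (ha : a ∈ s) (hb : b ∈ s) :
    ({a, b} : Finset V) ∈ K := by
  refine hK.2 s hs _ ?_ (by simp)
  intro x hx
  simp only [Finset.mem_insert, Finset.mem_singleton] at hx
  rcases hx with rfl | rfl
  · exact ha
  · exact hb

theorem taut : S_taut := by
  intro V _ K hK Y _ f hf y0 p s hs u hu v hv w hw
  have h1 := pair_mem hK hs hv hu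
  have h2 := pair_mem hK hs hw hv
  have h3 := pair_mem hK hs hw hu
  unfold tC
  rw [dif_pos h1, dif_pos h2, dif_pos h3]
  rw [FundamentalGroup.mul_def]
  have key := (ed_trans hK hs hw hv hu h2 h1 h3).map ⟨f, hf⟩
  rw [← Path.Homotopic.Quotient.eq] at key
  have e : (((ed hK w v h2).trans (ed hK v u h1)).map hf) =
    ((ed hK w v h2).map hf).trans ((ed hK v u h1).map hf) := Path.map_trans _ _ _
  have key' : (Path.Homotopic.Quotient.mk ((ed hK w v h2).map hf)).trans
      (Path.Homotopic.Quotient.mk ((ed hK v u h1).map hf)) =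
      Path.Homotopic.Quotient.mk ((ed hK w u h3).map hf) := by
    rw [← Path.Homotopic.Quotient.mk_trans, ← e]
    exact key
  change Path.Homotopic.Quotient.trans (Path.Homotopic.Quotient.mk _)
    (Path.Homotopic.Quotient.mk _) = Path.Homotopic.Quotient.mk _
  simp only [Path.Homotopic.Quotient.mk_trans, Path.Homotopic.Quotient.mk_symm,
    Path.Homotopic.Quotient.trans_assoc]
  rw [← Path.Homotopic.Quotient.trans_assoc (Path.Homotopic.Quotient.mk (p v _)),
    Path.Homotopic.Quotient.trans_symm, Path.Homotopic.Quotient.refl_trans,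
    ← Path.Homotopic.Quotient.trans_assoc (Path.Homotopic.Quotient.mk ((ed hK w v h2).map hf)),
    key']

end Pool.Agent.TH716.C3
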