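import Pool.Agent.TH716.C3.Taut

/-!
# Tools: descending along compact quotients, filling squares, gluing
-/

set_option autoImplicit false

open unitInterval Topology

namespace Pool.Agent.TH716.C3

open Pool.Agent.Helper281.Sc

theorem descend {D B X : Type} [TopologicalSpace D] [TopologicalSpace B] [TopologicalSpace X]
    [CompactSpace D] [T2Space B] (π : D → B) (hπ : Continuous π) (hs : Function.Surjective π)
    (F : D → X) (hF : Continuous F) (h : ∀ a b, π a = π b → F a = F b) :
    ∃ G : B → X, Continuous G ∧ ∀ a, G (π a) = F a := by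
  have hq : IsQuotientMap π := hπ.isClosedMap.isQuotientMap hπ hs
  choose g hg using hs
  refine ⟨fun b => F (g b), ?_, fun a => h _ _ (hg _)⟩
  rw [hq.continuous_iff]
  have : (fun b => F (g b)) ∘ π = F := by
    funext a
    exact h _ _ (hg _)
  rw [this]
  exact hF

/-- half of the sum -/
noncomputable def avg (x y : I) : I :=
  ⟨((x : ℝ) + y) / 2, by constructor <;> linarith [x.2.1, x.2.2, y.2.1, y.2.2]⟩

theorem continuous_avg : Continuous fun p : I × I => avg p.1 p.2 := by
  unfold avg
  refine Continuous.subtype_mk ?_ _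
  fun_prop

theorem trans_avg_left {X : Type} [TopologicalSpace X] {a b d : X} (p : Path a b) (q : Path b d)
    (x : I) : (p.trans q) (avg x 0) = p x := by
  rw [Path.trans_apply]
  have h : ((avg x 0 : I) : ℝ) ≤ 1 / 2 := by
    simp only [avg, Set.Icc.coe_zero]
    linarith [x.2.2]
  rw [dif_pos h]
  congr 1
  apply Subtype.ext
  simp [avg]
  ring

theorem trans_avg_right {X : Type} [TopologicalSpace X] {a b d : X} (p : Path a b) (q : Path b d)
    (x : I) : (p.trans q) (avg 1 x) = q x := by
  rw [Path.trans_apply]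
  by_cases h : ((avg 1 x : I) : ℝ) ≤ 1 / 2
  · rw [dif_pos h]
    have hx : x = 0 := by
      apply Subtype.ext
      simp only [avg, Set.Icc.coe_one] at h
      have := x.2.1
      change (x : ℝ) = 0
      linarith
    subst hx
    rw [q.source]
    have : (⟨2 * ((avg 1 0 : I) : ℝ), (unitInterval.mul_pos_mem_iff zero_lt_two).2
      ⟨(avg 1 0).2.1, h⟩⟩ : I) = 1 := by
      apply Subtype.ext
      simp [avg]
    rw [this, p.target]
  · rw [dif_neg h]
    congr 1
    apply Subtype.ext
    simp [avg]
    ring

theorem square_fill {X : Type} [TopologicalSpace X] {a b c d : X} (p : Path a b) (q : Path b d)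
    (r : Path a c) (s : Path c d) (h : (p.trans q).Homotopic (r.trans s)) :
    ∃ G : I × I → X, Continuous G ∧ (∀ x, G (x, 0) = p x) ∧ (∀ y, G (1, y) = q y) ∧
      (∀ y, G (0, y) = r y) ∧ ∀ x, G (x, 1) = s x := by
  obtain ⟨K⟩ := h
  let S : Set ((I × I) × I) := {z | (z.2 : ℝ) * ((z.1.2 : ℝ) * (1 - z.1.1) +
    (z.1.1 : ℝ) * (1 - z.1.2)) = (z.1.2 : ℝ) * (1 - z.1.1)}
  have hS : IsClosed S := isClosed_eq (by fun_prop) (by fun_prop)
  haveI : CompactSpace S := isCompact_iff_compactSpace.1 hS.isCompact
  obtain ⟨G, hG, hG'⟩ := descend (D := S) (B := I × I) (fun z => z.1.1)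
    (continuous_fst.comp continuous_subtype_val) (by
      rintro ⟨x, y⟩
      have hx0 := x.2.1
      have hx1 := x.2.2
      have hy0 := y.2.1
      have hy1 := y.2.2
      have h1 : 0 ≤ (y : ℝ) * (1 - x) := mul_nonneg hy0 (by linarith)
      have h2 : 0 ≤ (x : ℝ) * (1 - y) := mul_nonneg hx0 (by linarith)
      by_cases hd : (y : ℝ) * (1 - x) + (x : ℝ) * (1 - y) = 0
      · refine ⟨⟨((x, y), 0), ?_⟩, rfl⟩
        change ((0 : I) : ℝ) * _ = _
        have : (y : ℝ) * (1 - x) = 0 := by linarith
        simp [this]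
      · have hd' : 0 < (y : ℝ) * (1 - x) + (x : ℝ) * (1 - y) :=
          lt_of_le_of_ne (by linarith) (Ne.symm hd)
        refine ⟨⟨((x, y), ⟨(y : ℝ) * (1 - x) / ((y : ℝ) * (1 - x) + (x : ℝ) * (1 - y)),
          div_nonneg h1 hd'.le, (div_le_one hd').2 (by linarith)⟩), ?_⟩, rfl⟩
        change _ / _ * _ = _
        field_simp)
    (fun z => K (z.1.2, avg z.1.1.1 z.1.1.2)) (by
      refine K.continuous.comp (Continuous.prodMk (continuous_snd.comp continuous_subtype_val) ?_)
      exact continuous_avg.comp (continuous_fst.comp continuous_subtype_val)) (by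
      rintro ⟨⟨⟨x, y⟩, w⟩, hz⟩ ⟨⟨⟨x', y'⟩, w'⟩, hz'⟩ he
      simp only [Prod.mk.injEq] at he
      obtain ⟨rfl, rfl⟩ := he
      change (w : ℝ) * _ = _ at hz
      change (w' : ℝ) * _ = _ at hz'
      simp only at hz hz' ⊢
      have hx0 := x.2.1
      have hx1 := x.2.2
      have hy0 := y.2.1
      have hy1 := y.2.2
      have h1 : 0 ≤ (y : ℝ) * (1 - x) := mul_nonneg hy0 (by linarith)
      have h2 : 0 ≤ (x : ℝ) * (1 - y) := mul_nonneg hx0 (by linarith)
      by_cases hd : (y : ℝ) * (1 - x) + (x : ℝ) * (1 - y) = 0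
      · have h3 : (y : ℝ) * (1 - x) = 0 := by linarith
        have h4 : (x : ℝ) * (1 - y) = 0 := by linarith
        have h5 : (x : ℝ) = y := by linarith
        rw [← h5] at h4
        rcases mul_eq_zero.1 h4 with h6 | h6
        · have : avg x y = 0 := by
            apply Subtype.ext
            simp only [avg, Set.Icc.coe_zero]
            linarith
          rw [this]
          exact (K.source _).trans (K.source _).symm
        · have : avg x y = 1 := by
            apply Subtype.ext
            simp only [avg, Set.Icc.coe_one]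
            linarith
          rw [this]
          exact (K.target _).trans (K.target _).symm
      · have : w = w' := by
          apply Subtype.ext
          exact mul_right_cancel₀ hd (hz.trans hz'.symm)
        rw [this])
  refine ⟨G, hG, ?_, ?_, ?_, ?_⟩
  · intro x
    have := hG' ⟨((x, 0), 0), by change ((0 : I) : ℝ) * _ = _; simp⟩
    simp only at this
    rw [this, K.apply_zero]
    exact trans_avg_left p q x
  · intro y
    have := hG' ⟨((1, y), 0), by change ((0 : I) : ℝ) * _ = _; simp⟩
    simp only at this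
    rw [this, K.apply_zero]
    exact trans_avg_right p q y
  · intro y
    have := hG' ⟨((0, y), 1), by change ((1 : I) : ℝ) * _ = _; simp⟩
    simp only at this
    have e : avg 0 y = avg y 0 := by apply Subtype.ext; simp [avg]
    rw [this, K.apply_one, e]
    exact trans_avg_left r s y
  · intro x
    have := hG' ⟨((x, 1), 1), by change ((1 : I) : ℝ) * _ = _; simp⟩
    simp only at this
    have e : avg x 1 = avg 1 x := by apply Subtype.ext; simp only [avg]; ring
    rw [this, K.apply_one, e]
    exact trans_avg_right r s x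

/-- Gluing homotopies given on the simplices. -/
theorem glue {K : Set (Finset ℕ)} {Y : Type} [TopologicalSpace Y]
    (e : Finset ℕ → (ℕ → ℝ) × I → Y)
    (hc : ∀ s ∈ K, Continuous fun p : Simp s × I => e s (p.1.1, p.2))
    (he : ∀ s ∈ K, ∀ t ⊆ s, t.Nonempty → ∀ x ∈ Simp t, ∀ u : I, e s (x, u) = e t (x, u)) :
    ∃ H : Rlz K × I → Y, Continuous H ∧
      ∀ s (hs : s ∈ K) (x : Simp s) (u : I), H (Rlz.inc s hs x, u) = e s (x.1, u) := by
  have key : ∀ s (hs : s ∈ K) (x : Simp s) (u : I),
      e (Car.supp x.1) (x.1, u) = e s (x.1, u) := by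
    intro s hs x u
    exact (he s hs _ (Car.supp_subset x.2) (Car.nonempty_of_mem_simp (Car.mem_simp_supp x.2)) _
      (Car.mem_simp_supp x.2) u).symm
  refine ⟨fun p => e (Car.supp p.1.1) (p.1.1, p.2), ?_, fun s hs x u => key s hs x u⟩
  apply Rlz.continuous_prod
  intro s hs
  refine (hc s hs).congr fun p => ?_
  exact (key s hs p.1 p.2).symm

end Pool.Agent.TH716.C3
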